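import Mathlib
import Pool.Agent.Lib.SymZF.RO

/-!
# The algebra which makes `Λ` countable
-/

set_option autoImplicit false

namespace Pool.Agent.Lib.MP_473540_gtM

open Pool.Agent.Lib.SymZF Cardinal

/-- A complete Boolean algebra with a dense subset `D` of size at most `#Λ` and a name for a function
from `ω` onto `Λ`: `e n i` is the Boolean value of: the value at `n` is `i`. -/
structure Coll (Λ : Type) (B : Type) [CompleteBooleanAlgebra B] where
  /-- the dense set -/
  D : Set B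
  cardD : #D ≤ #Λ
  ne : ∀ d ∈ D, d ≠ ⊥
  dense : ∀ b : B, b ≠ ⊥ → ∃ d ∈ D, d ≤ b
  /-- the values of the generic function -/
  e : ℕ → Λ → B
  e_sup : ∀ n, ⨆ i, e n i = ⊤
  e_dis : ∀ n i j, i ≠ j → e n i ⊓ e n j = ⊥
  e_surj : ∀ i, ⨆ n, e n i = ⊤

/-- Conditions: finite sequences. -/
structure CollCond (Λ : Type) where
  /-- the finite sequence -/
  l : List Λ

instance (Λ : Type) : Preorder (CollCond Λ) where
  le p q := q.l <+: p.l
  le_refl p := List.prefix_rfl
  le_trans _ _ _ h1 h2 := List.IsPrefix.trans h2 h1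

private theorem coll_le {Λ : Type} {p q : CollCond Λ} : p ≤ q ↔ q.l <+: p.l := Iff.rfl

private theorem coll_get {Λ : Type} {p q : CollCond Λ} (h : p ≤ q) {n : ℕ} {i : Λ}
    (hi : q.l[n]? = some i) : p.l[n]? = some i := by
  obtain ⟨t, ht⟩ := coll_le.1 h
  have hn : n < q.l.length := by
    by_contra hcon
    rw [List.getElem?_eq_none (by omega)] at hi
    cases hi
  rw [← ht, List.getElem?_append_left hn]
  exact hi

/-- the value at `n` is `i`. -/
private noncomputable def collE (Λ : Type) (n : ℕ) (i : Λ) : RO (CollCond Λ) :=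
  ⨆ p : {p : CollCond Λ // p.l[n]? = some i}, emb p.1

private theorem coll_top {Λ : Type} (b : RO (CollCond Λ))
    (h : ∀ p : CollCond Λ, ∃ q : CollCond Λ, q ≤ p ∧ emb q ≤ b) : b = ⊤ := by
  by_contra hb
  have h1 : bᶜ ≠ ⊥ := fun h2 => hb (compl_eq_bot.1 h2)
  obtain ⟨p, hp⟩ := exists_emb_le h1
  obtain ⟨q, hq, hqb⟩ := h p
  have h3 : emb q ≤ b ⊓ bᶜ := le_inf hqb ((emb_mono hq).trans hp)
  have h4 : b ⊓ bᶜ = ⊥ := inf_compl_self b
  exact emb_ne_bot q (le_bot_iff.1 (h3.trans (le_of_eq h4)))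

private theorem coll_emb_le {Λ : Type} {q : CollCond Λ} {n : ℕ} {i : Λ}
    (h : q.l[n]? = some i) : emb q ≤ collE Λ n i :=
  le_iSup (fun p : {p : CollCond Λ // p.l[n]? = some i} => emb p.1) ⟨q, h⟩

/-- **The collapsing algebra.** -/
theorem exists_coll (Λ : Type) (hΛ : ℵ₀ ≤ #Λ) : ∃ (B : Type) (_ : CompleteBooleanAlgebra B),
    Nontrivial B ∧ Nonempty (Coll Λ B) := by
  have hinf : Infinite Λ := Cardinal.infinite_iff.2 hΛ
  obtain ⟨i0⟩ : Nonempty Λ := inferInstance
  refine ⟨RO (CollCond Λ), inferInstance, ⟨emb ⟨[]⟩, ⊥, emb_ne_bot _⟩, ⟨?_⟩⟩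
  refine
    { D := Set.range (emb : CollCond Λ → RO (CollCond Λ))
      cardD := ?_
      ne := ?_
      dense := ?_
      e := collE Λ
      e_sup := ?_
      e_dis := ?_
      e_surj := ?_ }
  · refine Cardinal.mk_range_le.trans ?_
    have e1 : CollCond Λ ≃ List Λ :=
      ⟨fun p => p.l, fun l => ⟨l⟩, fun _ => rfl, fun _ => rfl⟩
    rw [Cardinal.mk_congr e1, Cardinal.mk_list_eq_mk]
  · rintro _ ⟨p, rfl⟩
    exact emb_ne_bot p
  · intro b hb
    obtain ⟨p, hp⟩ := exists_emb_le hb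
    exact ⟨_, ⟨p, rfl⟩, hp⟩
  · intro n
    refine coll_top _ fun p => ?_
    have hlen : n < (p.l ++ List.replicate (n + 1) i0).length := by
      rw [List.length_append, List.length_replicate]
      omega
    refine ⟨⟨p.l ++ List.replicate (n + 1) i0⟩, List.prefix_append _ _, ?_⟩
    have h1 : (p.l ++ List.replicate (n + 1) i0)[n]? =
        some ((p.l ++ List.replicate (n + 1) i0)[n]) := List.getElem?_eq_getElem hlen
    exact (coll_emb_le h1).trans (le_iSup (collE Λ n) _)
  · intro n i j hij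
    rw [← le_bot_iff]
    unfold collE
    rw [iSup_inf_eq]
    refine iSup_le fun p => ?_
    rw [inf_iSup_eq]
    refine iSup_le fun q => ?_
    refine le_of_eq (emb_inf_eq_bot fun r hr1 hr2 => ?_)
    have h1 := coll_get hr1 p.2
    have h2 := coll_get hr2 q.2
    rw [h1] at h2
    exact hij (Option.some.inj h2)
  · intro i
    refine coll_top _ fun p => ?_
    refine ⟨⟨p.l ++ [i]⟩, List.prefix_append _ _, ?_⟩
    have h1 : (p.l ++ [i])[p.l.length]? = some i := by
      rw [List.getElem?_append_right le_rfl, Nat.sub_self]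
      rfl
    exact (coll_emb_le h1).trans (le_iSup (fun n => collE Λ n i) _)

end Pool.Agent.Lib.MP_473540_gtM
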