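import Mathlib
import Pool.Agent.Lib.SymZF.IntDefs

/-!
# Topological notions inside a model of set theory

`(M, E)` is a structure for the language of set theory (`E` is the membership relation). The
elementary notions `Rel E f x y` (`(x, y) ∈ f`) and `IsOmega E w` (`w = ω`, the least inductive set)
are defined in `Pool.Agent.Lib.SymZF.IntDefs`. `X` is a set of `M` and `T` is a set of `M`, a
topology on `X`.
-/

set_option autoImplicit false

namespace Pool.Agent.Lib.MP_473540_gtM

open Pool.Agent.Lib.SymZF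

section

variable {M : Type} (E : M → M → Prop)

/-- `x ⊆ y` -/
def SubE (x y : M) : Prop := ∀ z, E z x → E z y

/-- `T` is a topology on `X`: a set of subsets of `X` which contains `X`, the intersection of any two
of its elements and the union of any of its subsets -/
structure IsTop (X T : M) : Prop where
  sub : ∀ U, E U T → SubE E U X
  univ : E X T
  inter : ∀ U V, E U T → E V T → ∃ W, E W T ∧ ∀ x, E x W ↔ E x U ∧ E x V
  union : ∀ S, SubE E S T → ∃ W, E W T ∧ ∀ x, E x W ↔ ∃ U, E U S ∧ E x U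

/-- the `T₁` axiom -/
def IsT1 (X T : M) : Prop :=
  ∀ x y, E x X → E y X → x ≠ y → ∃ U, E U T ∧ E x U ∧ ¬ E y U

/-- `F` is a closed subset of `X` -/
def IsClosedE (X T F : M) : Prop :=
  SubE E F X ∧ ∃ U, E U T ∧ ∀ x, E x X → (E x F ↔ ¬ E x U)

/-- disjoint closed sets have disjoint open neighbourhoods -/
def IsNormalE (X T : M) : Prop :=
  ∀ F G, IsClosedE E X T F → IsClosedE E X T G → (∀ x, ¬ (E x F ∧ E x G)) →
    ∃ V W, E V T ∧ E W T ∧ SubE E F V ∧ SubE E G W ∧ ∀ x, ¬ (E x V ∧ E x W)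

/-- `𝒰` covers `X` -/
def CoversE (X 𝒰 : M) : Prop := ∀ x, E x X → ∃ U, E U 𝒰 ∧ E x U

/-- `A` is countable: there is a set `f` of pairs such that every `a ∈ A` is, for some `n ∈ ω`, the
only `b` with `(n, b) ∈ f` -/
def CtblE (A : M) : Prop :=
  ∃ w f, IsOmega E w ∧ ∀ a, E a A → ∃ n, E n w ∧ Rel E f n a ∧ ∀ b, Rel E f n b → b = a

/-- `𝒰` has a countable subset which covers `X` -/
def CtblSubcover (X 𝒰 : M) : Prop := ∃ 𝒱, SubE E 𝒱 𝒰 ∧ CtblE E 𝒱 ∧ CoversE E X 𝒱

/-- every open cover which is a chain under inclusion has a countable subcover -/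
def IsLinLindelofE (X T : M) : Prop :=
  ∀ 𝒰, SubE E 𝒰 T → CoversE E X 𝒰 →
    (∀ U V, E U 𝒰 → E V 𝒰 → SubE E U V ∨ SubE E V U) → CtblSubcover E X 𝒰

/-- every open cover has a countable subcover -/
def IsLindelofE (X T : M) : Prop := ∀ 𝒰, SubE E 𝒰 T → CoversE E X 𝒰 → CtblSubcover E X 𝒰

/-- the space `(X, T)` is a normal `T₁` space, linearly Lindelöf and not Lindelöf -/
structure IsExample (X T : M) : Prop where
  top : IsTop E X T
  t1 : IsT1 E X T
  normal : IsNormalE E X T
  lin : IsLinLindelofE E X T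
  not_lindelof : ¬ IsLindelofE E X T

end

end Pool.Agent.Lib.MP_473540_gtM
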