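import Mathlib
import Pool.Agent.Lib.RM48.Names
import Pool.Agent.Lib.MP_473540_gtM.BV.IDefs

/-!
# The formulas
-/

set_option autoImplicit false

namespace Pool.Agent.Lib.MP_473540_gtM

open Pool.Agent.Lib.SymZF Pool.Agent.Lib.SymZF.SymSys Pool.Agent.Lib.RM48 Pool.Agent.Lib.KZF

/-- `v i = ω` (`ω` is the largest set of natural numbers) -/
def fOm (i : ℕ) : FmlX :=
  (FmlX.real i).and (FmlX.all ((FmlX.real 0).imp (FmlX.all ((FmlX.mem 0 1).imp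
    (FmlX.mem 0 (i + 2))))))

/-- `v i ⊆ v j` -/
def fSub (i j : ℕ) : FmlX := FmlX.all ((FmlX.mem 0 (i + 1)).imp (FmlX.mem 0 (j + 1)))

/-- `v j` covers `v i` -/
def fCov (i j : ℕ) : FmlX :=
  FmlX.all ((FmlX.mem 0 (i + 1)).imp (FmlX.ex ((FmlX.mem 0 (j + 2)).and (FmlX.mem 1 0))))

/-- `v i` is countable -/
def fCtb (i : ℕ) : FmlX :=
  FmlX.ex (FmlX.ex ((fOm 1).and (FmlX.all ((FmlX.mem 0 (i + 3)).imp (FmlX.ex ((FmlX.mem 0 3).and
    ((xRel 2 0 1).and (FmlX.all ((xRel 3 1 0).imp (FmlX.eq 0 2))))))))))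

/-- `v j` has a countable subset which covers `v i` -/
def fCsc (i j : ℕ) : FmlX :=
  FmlX.ex ((fSub 0 (j + 1)).and ((fCtb 0).and (fCov (i + 1) 0)))

/-- `v j` is a set of subsets of `v i` -/
def fTopA (i j : ℕ) : FmlX := FmlX.all ((FmlX.mem 0 (j + 1)).imp (fSub 0 (i + 1)))

/-- `v j` is closed under intersections -/
def fTopB (j : ℕ) : FmlX :=
  FmlX.all (FmlX.all ((FmlX.mem 1 (j + 2)).imp ((FmlX.mem 0 (j + 2)).imp
    (FmlX.ex ((FmlX.mem 0 (j + 3)).and (FmlX.all ((FmlX.mem 0 1).iff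
      ((FmlX.mem 0 3).and (FmlX.mem 0 2)))))))))

/-- `v j` is closed under unions -/
def fTopC (j : ℕ) : FmlX :=
  FmlX.all ((fSub 0 (j + 1)).imp (FmlX.ex ((FmlX.mem 0 (j + 2)).and (FmlX.all ((FmlX.mem 0 1).iff
    (FmlX.ex ((FmlX.mem 0 3).and (FmlX.mem 1 0))))))))

/-- the `T₁` axiom -/
def fT1 (i j : ℕ) : FmlX :=
  FmlX.all (FmlX.all ((FmlX.mem 1 (i + 2)).imp ((FmlX.mem 0 (i + 2)).imp
    ((FmlX.neg (FmlX.eq 1 0)).imp (FmlX.ex ((FmlX.mem 0 (j + 3)).and ((FmlX.mem 2 0).and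
      (FmlX.neg (FmlX.mem 1 0)))))))))

/-- normality, formulated with the complements of the closed sets -/
def fNor (i j : ℕ) : FmlX :=
  FmlX.all (FmlX.all ((FmlX.mem 1 (j + 2)).imp ((FmlX.mem 0 (j + 2)).imp
    ((FmlX.all ((FmlX.mem 0 (i + 3)).imp ((FmlX.mem 0 2).or (FmlX.mem 0 1)))).imp
      (FmlX.ex (FmlX.ex ((FmlX.mem 1 (j + 4)).and ((FmlX.mem 0 (j + 4)).and
        ((FmlX.all ((FmlX.mem 0 (i + 5)).imp ((FmlX.mem 0 4).or (FmlX.mem 0 2)))).and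
        ((FmlX.all ((FmlX.mem 0 (i + 5)).imp ((FmlX.mem 0 3).or (FmlX.mem 0 1)))).and
        (FmlX.all (FmlX.neg ((FmlX.mem 0 2).and (FmlX.mem 0 1))))))))))))))

/-- linear Lindelöf property -/
def fLin (i j : ℕ) : FmlX :=
  FmlX.all ((fSub 0 (j + 1)).imp ((fCov (i + 1) 0).imp
    ((FmlX.all (FmlX.all ((FmlX.mem 1 2).imp ((FmlX.mem 0 2).imp
      ((fSub 1 0).or (fSub 0 1)))))).imp (fCsc (i + 1) 0))))

/-- not Lindelöf -/
def fNL (i j : ℕ) : FmlX :=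
  FmlX.ex ((fSub 0 (j + 1)).and ((fCov (i + 1) 0).and (FmlX.neg (fCsc (i + 1) 0))))

/-- all properties of the space `(v 1, v 0)` -/
def fBody : FmlX :=
  (fTopA 1 0).and ((FmlX.mem 1 0).and ((fTopB 0).and ((fTopC 0).and ((fT1 1 0).and
    ((fNor 1 0).and ((fLin 1 0).and (fNL 1 0)))))))

/-- the sentence -/
def fSent : FmlX := FmlX.ex (FmlX.ex fBody)

end Pool.Agent.Lib.MP_473540_gtM
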