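import Mathlib
import Pool.Agent.Lib.MP_473540_gtM.BV.Fml

section

/-!
# Boolean values of the formulas
-/

set_option autoImplicit false

namespace Pool.Agent.Lib.MP_473540_gtM

open Pool.Agent.Lib.SymZF Pool.Agent.Lib.SymZF.SymSys Pool.Agent.Lib.RM48 Pool.Agent.Lib.KZF

variable {B : Type} [CompleteBooleanAlgebra B]

/-- the Boolean value of: `x ⊆ y` -/
noncomputable def bsub (x y : (tS B).HSet) : B := ⨅ z : (tS B).HSet, z.mem x ⇨ z.mem y

/-- the Boolean value of: `U` covers `X` -/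
noncomputable def bcov (X U : (tS B).HSet) : B :=
  ⨅ x : (tS B).HSet, x.mem X ⇨ ⨆ u : (tS B).HSet, u.mem U ⊓ x.mem u

/-- the Boolean value of: `a` is the only `b` with `(n, b) ∈ f` -/
noncomputable def buniq (f n a : (tS B).HSet) : B :=
  relv f n a ⊓ ⨅ b : (tS B).HSet, relv f n b ⇨ b.eq a

/-- the Boolean value of: `f` enumerates `A` -/
noncomputable def benum (A w f : (tS B).HSet) : B :=
  ⨅ a : (tS B).HSet, a.mem A ⇨ ⨆ n : (tS B).HSet, n.mem w ⊓ buniq f n a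

/-- the Boolean value of: `A` is countable -/
noncomputable def bctb (A : (tS B).HSet) : B :=
  ⨆ w : (tS B).HSet, ⨆ f : (tS B).HSet, w.eq (HSet.om (tS B)) ⊓ benum A w f

/-- the Boolean value of: `U` has a countable subset which covers `X` -/
noncomputable def bcsc (X U : (tS B).HSet) : B :=
  ⨆ V : (tS B).HSet, bsub V U ⊓ (bctb V ⊓ bcov X V)

/-- the Boolean value of: `U` is a chain under inclusion -/
noncomputable def bchain (U : (tS B).HSet) : B :=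
  ⨅ u : (tS B).HSet, ⨅ v : (tS B).HSet, u.mem U ⇨ v.mem U ⇨ bsub u v ⊔ bsub v u

variable (C : ℕ → BF) (v : ℕ → (tS B).HSet) (i j : ℕ)

private theorem rlv_om : rlv (HSet.om (tS B)) = ⊤ := by
  rw [rlv, iInf_eq_top]
  intro z
  rw [himp_self]

/-- **`ω`** -/
theorem bvalX_fOm : bvalX C (fOm i) v = (v i).eq (HSet.om (tS B)) := by
  have h0 : bvalX C (fOm i) v = rlv (v i) ⊓ ⨅ z : (tS B).HSet,
      (rlv z ⇨ ⨅ t : (tS B).HSet, (t.mem z ⇨ t.mem (v i))) := by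
    simp only [fOm, bvalX_and, bvalX_real, bvalX_all, bvalX_imp, bvalX_mem]
    rfl
  rw [h0]
  apply le_antisymm
  · refine HSet.le_eq (S := tS B) (fun z => ?_) (fun z => ?_)
    · exact (inf_le_inf_right _ (inf_le_left.trans (iInf_le _ z))).trans himp_inf_le
    · have h1 : (⨅ z : (tS B).HSet, (rlv z ⇨ ⨅ t : (tS B).HSet, (t.mem z ⇨ t.mem (v i)))) ≤
          (z.mem (HSet.om (tS B)) ⇨ z.mem (v i)) := by
        refine (iInf_le _ (HSet.om (tS B))).trans ?_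
        rw [rlv_om, top_himp]
        exact iInf_le _ z
      exact (inf_le_inf_right _ (inf_le_right.trans h1)).trans himp_inf_le
  · refine le_inf ?_ (le_iInf fun z => ?_)
    · have h1 := rlv_congr (HSet.om (tS B)) (v i)
      rw [rlv_om, inf_top_eq, HSet.eq_symm] at h1
      exact h1
    · rw [le_himp_iff]
      refine le_iInf fun t => ?_
      rw [le_himp_iff]
      have h1 : (v i).eq (HSet.om (tS B)) ⊓ rlv z ⊓ t.mem z ≤
          (HSet.om (tS B)).eq (v i) ⊓ t.mem (HSet.om (tS B)) := by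
        refine le_inf ?_ ?_
        · rw [HSet.eq_symm]
          exact inf_le_left.trans inf_le_left
        · exact (inf_le_inf_right _ (inf_le_right.trans (iInf_le _ t))).trans himp_inf_le
      exact h1.trans (HSet.mem_congr_right _ _ _)

theorem bvalX_fSub : bvalX C (fSub i j) v = bsub (v i) (v j) := by
  simp only [fSub, bvalX_all, bvalX_imp, bvalX_mem]
  rfl

theorem bvalX_fCov : bvalX C (fCov i j) v = bcov (v i) (v j) := by
  simp only [fCov, bvalX_all, bvalX_imp, bvalX_mem, bvalX_ex, bvalX_and]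
  rfl

theorem bvalX_fCtb : bvalX C (fCtb i) v = bctb (v i) := by
  simp only [fCtb, bvalX_all, bvalX_imp, bvalX_mem, bvalX_ex, bvalX_and, bvalX_fOm, bvalX_xRel,
    bvalX_eq]
  rfl

theorem bvalX_fCsc : bvalX C (fCsc i j) v = bcsc (v i) (v j) := by
  simp only [fCsc, bvalX_ex, bvalX_and, bvalX_fSub, bvalX_fCtb, bvalX_fCov]
  rfl

/-- **The criterion for the sentence.** -/
theorem bvalX_fSent (X T : (tS B).HSet)
    (h1 : ∀ U : (tS B).HSet, U.mem T ≤ bsub U X)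
    (h2 : X.mem T = ⊤)
    (h3 : ∀ U V : (tS B).HSet, U.mem T ⊓ V.mem T ≤ ⨆ W : (tS B).HSet, W.mem T ⊓
      ⨅ x : (tS B).HSet, (x.mem W ⇨ x.mem U ⊓ x.mem V) ⊓ (x.mem U ⊓ x.mem V ⇨ x.mem W))
    (h4 : ∀ S : (tS B).HSet, bsub S T ≤ ⨆ W : (tS B).HSet, W.mem T ⊓ ⨅ x : (tS B).HSet,
      (x.mem W ⇨ ⨆ U : (tS B).HSet, U.mem S ⊓ x.mem U) ⊓
      ((⨆ U : (tS B).HSet, U.mem S ⊓ x.mem U) ⇨ x.mem W))
    (h5 : ∀ x y : (tS B).HSet, x.mem X ⊓ y.mem X ⊓ (x.eq y)ᶜ ≤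
      ⨆ U : (tS B).HSet, U.mem T ⊓ (x.mem U ⊓ (y.mem U)ᶜ))
    (h6 : ∀ U₁ U₂ : (tS B).HSet, U₁.mem T ⊓ U₂.mem T ⊓ (⨅ x : (tS B).HSet, x.mem X ⇨ x.mem U₁ ⊔ x.mem U₂) ≤
      ⨆ V₁ : (tS B).HSet, ⨆ V₂ : (tS B).HSet, V₁.mem T ⊓ (V₂.mem T ⊓
        ((⨅ x : (tS B).HSet, x.mem X ⇨ x.mem U₁ ⊔ x.mem V₁) ⊓
        ((⨅ x : (tS B).HSet, x.mem X ⇨ x.mem U₂ ⊔ x.mem V₂) ⊓
        ⨅ x : (tS B).HSet, (x.mem V₁ ⊓ x.mem V₂)ᶜ))))
    (h7 : ∀ 𝒰 : (tS B).HSet, bsub 𝒰 T ⊓ bcov X 𝒰 ⊓ bchain 𝒰 ≤ bcsc X 𝒰)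
    (h8 : ∃ 𝒰 : (tS B).HSet, bsub 𝒰 T = ⊤ ∧ bcov X 𝒰 = ⊤ ∧ bcsc X 𝒰 = ⊥) :
    bvalX C fSent v = ⊤ := by
  have e : bvalX C fSent v = ⨆ X' : (tS B).HSet, ⨆ T' : (tS B).HSet,
      bvalX C fBody (scons T' (scons X' v)) := by
    simp only [fSent, bvalX_ex]
  rw [e, eq_top_iff]
  refine le_iSup_of_le X (le_iSup_of_le T ?_)
  have a1 : bvalX C (fTopA 1 0) (scons T (scons X v)) =
      ⨅ U : (tS B).HSet, (U.mem T ⇨ bsub U X) := by
    simp only [fTopA, bvalX_all, bvalX_imp, bvalX_mem, bvalX_fSub]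
    rfl
  have a2 : bvalX C (FmlX.mem 1 0) (scons T (scons X v)) = X.mem T := rfl
  have a3 : bvalX C (fTopB 0) (scons T (scons X v)) =
      ⨅ U : (tS B).HSet, ⨅ V : (tS B).HSet, (U.mem T ⇨ (V.mem T ⇨ ⨆ W : (tS B).HSet, W.mem T ⊓
      ⨅ x : (tS B).HSet, (x.mem W ⇨ x.mem U ⊓ x.mem V) ⊓ (x.mem U ⊓ x.mem V ⇨ x.mem W))) := by
    simp only [fTopB, bvalX_all, bvalX_imp, bvalX_mem, bvalX_ex, bvalX_and, bvalX_iff]
    rfl
  have a4 : bvalX C (fTopC 0) (scons T (scons X v)) =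
      ⨅ S : (tS B).HSet, (bsub S T ⇨ ⨆ W : (tS B).HSet, W.mem T ⊓ ⨅ x : (tS B).HSet,
      (x.mem W ⇨ ⨆ U : (tS B).HSet, U.mem S ⊓ x.mem U) ⊓
      ((⨆ U : (tS B).HSet, U.mem S ⊓ x.mem U) ⇨ x.mem W)) := by
    simp only [fTopC, bvalX_all, bvalX_imp, bvalX_mem, bvalX_ex, bvalX_and, bvalX_iff, bvalX_fSub]
    rfl
  have a5 : bvalX C (fT1 1 0) (scons T (scons X v)) =
      ⨅ x : (tS B).HSet, ⨅ y : (tS B).HSet, (x.mem X ⇨ (y.mem X ⇨ ((x.eq y)ᶜ ⇨
      ⨆ U : (tS B).HSet, U.mem T ⊓ (x.mem U ⊓ (y.mem U)ᶜ)))) := by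
    simp only [fT1, bvalX_all, bvalX_imp, bvalX_mem, bvalX_ex, bvalX_and, bvalX_neg, bvalX_eq]
    rfl
  have a6 : bvalX C (fNor 1 0) (scons T (scons X v)) =
      ⨅ U₁ : (tS B).HSet, ⨅ U₂ : (tS B).HSet, (U₁.mem T ⇨ (U₂.mem T ⇨
      ((⨅ x : (tS B).HSet, x.mem X ⇨ x.mem U₁ ⊔ x.mem U₂) ⇨
      ⨆ V₁ : (tS B).HSet, ⨆ V₂ : (tS B).HSet, V₁.mem T ⊓ (V₂.mem T ⊓
        ((⨅ x : (tS B).HSet, x.mem X ⇨ x.mem U₁ ⊔ x.mem V₁) ⊓
        ((⨅ x : (tS B).HSet, x.mem X ⇨ x.mem U₂ ⊔ x.mem V₂) ⊓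
        ⨅ x : (tS B).HSet, (x.mem V₁ ⊓ x.mem V₂)ᶜ)))))) := by
    simp only [fNor, bvalX_all, bvalX_imp, bvalX_mem, bvalX_ex, bvalX_and, bvalX_neg, bvalX_or]
    rfl
  have a7 : bvalX C (fLin 1 0) (scons T (scons X v)) =
      ⨅ 𝒰 : (tS B).HSet, (bsub 𝒰 T ⇨ (bcov X 𝒰 ⇨ (bchain 𝒰 ⇨ bcsc X 𝒰))) := by
    simp only [fLin, bvalX_all, bvalX_imp, bvalX_mem, bvalX_or, bvalX_fSub, bvalX_fCov,
      bvalX_fCsc]
    rfl
  have a8 : bvalX C (fNL 1 0) (scons T (scons X v)) =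
      ⨆ 𝒰 : (tS B).HSet, bsub 𝒰 T ⊓ (bcov X 𝒰 ⊓ (bcsc X 𝒰)ᶜ) := by
    simp only [fNL, bvalX_ex, bvalX_and, bvalX_neg, bvalX_fSub, bvalX_fCov, bvalX_fCsc]
    rfl
  simp only [fBody, bvalX_and]
  rw [a1, a2, a3, a4, a5, a6, a7, a8]
  refine le_inf ?_ (le_inf ?_ (le_inf ?_ (le_inf ?_ (le_inf ?_ (le_inf ?_ (le_inf ?_ ?_))))))
  · refine le_iInf fun U => ?_
    rw [le_himp_iff, top_inf_eq]
    exact h1 U
  · rw [h2]
  · refine le_iInf fun U => le_iInf fun V => ?_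
    rw [le_himp_iff, le_himp_iff, top_inf_eq]
    exact h3 U V
  · refine le_iInf fun S => ?_
    rw [le_himp_iff, top_inf_eq]
    exact h4 S
  · refine le_iInf fun x => le_iInf fun y => ?_
    rw [le_himp_iff, le_himp_iff, le_himp_iff, top_inf_eq]
    exact h5 x y
  · refine le_iInf fun U₁ => le_iInf fun U₂ => ?_
    rw [le_himp_iff, le_himp_iff, le_himp_iff, top_inf_eq]
    exact h6 U₁ U₂
  · refine le_iInf fun 𝒰 => ?_
    rw [le_himp_iff, le_himp_iff, le_himp_iff, top_inf_eq]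
    exact h7 𝒰
  · obtain ⟨𝒰, u1, u2, u3⟩ := h8
    refine le_iSup_of_le 𝒰 ?_
    rw [u1, u2, u3, compl_bot, inf_top_eq, inf_top_eq]

end Pool.Agent.Lib.MP_473540_gtM
end

section

/-!
# Names for subsets and the topology
-/

set_option autoImplicit false

namespace Pool.Agent.Lib.MP_473540_gtM

open Pool.Agent.Lib.SymZF Pool.Agent.Lib.SymZF.SymSys Pool.Agent.Lib.RM48 Pool.Agent.Lib.KZF

variable {B : Type} [CompleteBooleanAlgebra B] {Y : Type}

/-- `f y` is the Boolean value of: `y` is in the set; the set is open -/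
def Op [TopologicalSpace Y] (f : Y → B) : Prop :=
  ∀ y, f y ≤ ⨆ b : {b : Set Y // IsOpen b ∧ y ∈ b}, ⨅ y' : b.1, f y'

/-- the name of the subset with the values `f` -/
def sb (pt : Y → (tS B).HSet) (f : Y → B) : (tS B).HSet := fm pt f

/-- the name of the space -/
def XX (pt : Y → (tS B).HSet) : (tS B).HSet := fm pt (fun _ => ⊤)

/-- the name of the topology -/
def TT [TopologicalSpace Y] (pt : Y → (tS B).HSet) : (tS B).HSet :=
  fm (fun F : {f : Y → B // Op f} => sb pt F.1) (fun _ => ⊤)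

/-- distinct names -/
def Inj (pt : Y → (tS B).HSet) : Prop := ∀ y y', y ≠ y' → (pt y).eq (pt y') = ⊥

variable {pt : Y → (tS B).HSet}

theorem mem_sb' (f : Y → B) (x : (tS B).HSet) : x.mem (sb pt f) = ⨆ y, f y ⊓ x.eq (pt y) := rfl

theorem mem_sb (hpt : Inj pt) (f : Y → B) (y : Y) : (pt y).mem (sb pt f) = f y := by
  rw [mem_sb']
  apply le_antisymm
  · refine iSup_le fun y' => ?_
    by_cases h : y = y'
    · subst h
      exact inf_le_left
    · rw [hpt y y' h, inf_bot_eq]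
      exact bot_le
  · exact le_iSup_of_le (f := fun y' => f y' ⊓ (pt y).eq (pt y')) y (by simp)

/-- bounded quantifiers: for all elements of a name -/
theorem iInf_fm {I : Type} (f : I → (tS B).HSet) (b : I → B) (P : (tS B).HSet → B)
    (hP : ∀ x y : (tS B).HSet, x.eq y ⊓ P x ≤ P y) :
    ⨅ x : (tS B).HSet, (x.mem (fm f b) ⇨ P x) = ⨅ i, (b i ⇨ P (f i)) := by
  apply le_antisymm
  · refine le_iInf fun i => (iInf_le _ (f i)).trans ?_
    refine himp_le_himp ?_ le_rfl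
    rw [mem_fm]
    exact le_iSup_of_le (f := fun j => b j ⊓ (f i).eq (f j)) i (by simp)
  · refine le_iInf fun x => ?_
    rw [le_himp_iff, mem_fm, inf_iSup_eq]
    refine iSup_le fun i => ?_
    refine le_trans ?_ (hP (f i) x)
    refine le_inf ?_ ?_
    · rw [HSet.eq_symm]
      exact inf_le_right.trans inf_le_right
    · refine (inf_le_inf (iInf_le _ i) inf_le_left).trans ?_
      exact himp_inf_le

/-- bounded quantifiers: for some element of a name -/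
theorem iSup_fm {I : Type} (f : I → (tS B).HSet) (b : I → B) (P : (tS B).HSet → B)
    (hP : ∀ x y : (tS B).HSet, x.eq y ⊓ P x ≤ P y) :
    ⨆ x : (tS B).HSet, x.mem (fm f b) ⊓ P x = ⨆ i, b i ⊓ P (f i) := by
  apply le_antisymm
  · refine iSup_le fun x => ?_
    rw [mem_fm, iSup_inf_eq]
    refine iSup_le fun i => le_iSup_of_le i ?_
    refine le_inf (inf_le_left.trans inf_le_left) ?_
    refine le_trans ?_ (hP x (f i))
    exact inf_le_inf_right _ inf_le_right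
  · refine iSup_le fun i => le_iSup_of_le (f i) (inf_le_inf_right _ ?_)
    rw [mem_fm]
    exact le_iSup_of_le (f := fun j => b j ⊓ (f i).eq (f j)) i (by simp)

/-- a bounded quantifier over the space -/
theorem iInf_XX (P : (tS B).HSet → B) (hP : ∀ x y : (tS B).HSet, x.eq y ⊓ P x ≤ P y) :
    ⨅ x : (tS B).HSet, (x.mem (XX pt) ⇨ P x) = ⨅ y, P (pt y) := by
  rw [XX, iInf_fm _ _ _ hP]
  simp

/-- a bounded quantifier over the topology -/
theorem iInf_TT [TopologicalSpace Y] (P : (tS B).HSet → B)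
    (hP : ∀ x y : (tS B).HSet, x.eq y ⊓ P x ≤ P y) :
    ⨅ x : (tS B).HSet, (x.mem (TT pt) ⇨ P x) = ⨅ F : {f : Y → B // Op f}, P (sb pt F.1) := by
  rw [TT, iInf_fm _ _ _ hP]
  simp

theorem sb_mem_TT [TopologicalSpace Y] {f : Y → B} (hf : Op f) : (sb pt f).mem (TT pt) = ⊤ :=
  mem_fm_top (fun F : {f : Y → B // Op f} => sb pt F.1) ⟨f, hf⟩

theorem mem_TT [TopologicalSpace Y] (x : (tS B).HSet) :
    x.mem (TT pt) = ⨆ F : {f : Y → B // Op f}, x.eq (sb pt F.1) := by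
  rw [TT, mem_fm]
  simp

theorem mem_XX (x : (tS B).HSet) : x.mem (XX pt) = ⨆ y, x.eq (pt y) := by
  rw [XX, mem_fm]
  simp

/-- inclusion of names for subsets -/
theorem bsub_sb (hpt : Inj pt) (f g : Y → B) : bsub (sb pt f) (sb pt g) = ⨅ y, f y ⇨ g y := by
  rw [bsub, sb, iInf_fm _ _ _ (fun x y => HSet.mem_congr_left _ _ _)]
  exact iInf_congr fun y => by rw [mem_sb hpt]

theorem bsub_sb_XX (f : Y → B) : bsub (sb pt f) (XX pt) = ⊤ := by
  rw [bsub, sb, iInf_fm _ _ _ (fun x y => HSet.mem_congr_left _ _ _), iInf_eq_top]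
  intro y
  have h1 : (pt y).mem (XX pt) = ⊤ := mem_fm_top pt y
  rw [h1, himp_top]

/-- equality of names for subsets -/
theorem eq_sb_le (hpt : Inj pt) (f g : Y → B) (y : Y) :
    (sb pt f).eq (sb pt g) ⊓ f y ≤ g y := by
  have h1 := HSet.mem_congr_right (pt y) (sb pt f) (sb pt g)
  rwa [mem_sb hpt, mem_sb hpt] at h1

/-- `bsub` respects equality -/
theorem bsub_congr (x y x' y' : (tS B).HSet) : x.eq x' ⊓ y.eq y' ⊓ bsub x y ≤ bsub x' y' := by
  refine le_iInf fun z => ?_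
  rw [le_himp_iff]
  have h1 : x.eq x' ⊓ z.mem x' ≤ z.mem x := by
    rw [HSet.eq_symm]
    exact HSet.mem_congr_right _ _ _
  have h2 : y.eq y' ⊓ z.mem y ≤ z.mem y' := HSet.mem_congr_right _ _ _
  have h3 : bsub x y ⊓ z.mem x ≤ z.mem y := (inf_le_inf_right _ (iInf_le _ z)).trans himp_inf_le
  calc x.eq x' ⊓ y.eq y' ⊓ bsub x y ⊓ z.mem x'
      ≤ y.eq y' ⊓ (bsub x y ⊓ (x.eq x' ⊓ z.mem x')) := by
        refine le_inf (inf_le_left.trans (inf_le_left.trans inf_le_right)) (le_inf ?_ (le_inf ?_ ?_))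
        · exact inf_le_left.trans inf_le_right
        · exact inf_le_left.trans (inf_le_left.trans inf_le_left)
        · exact inf_le_right
    _ ≤ y.eq y' ⊓ (bsub x y ⊓ z.mem x) := inf_le_inf_left _ (inf_le_inf_left _ h1)
    _ ≤ y.eq y' ⊓ z.mem y := inf_le_inf_left _ h3
    _ ≤ z.mem y' := h2

end Pool.Agent.Lib.MP_473540_gtM
end

section

/-!
# Open functions
-/

set_option autoImplicit false

namespace Pool.Agent.Lib.MP_473540_gtM

open Pool.Agent.Lib.SymZF Pool.Agent.Lib.SymZF.SymSys Pool.Agent.Lib.RM48 Pool.Agent.Lib.KZF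

variable {B : Type} [CompleteBooleanAlgebra B] {Y : Type} [TopologicalSpace Y]

theorem op_top : Op (fun _ : Y => (⊤ : B)) := by
  intro y
  refine le_iSup_of_le ⟨Set.univ, isOpen_univ, trivial⟩ ?_
  simp

theorem op_bot : Op (fun _ : Y => (⊥ : B)) := fun _ => bot_le

/-- a criterion: every nonzero element below `f y` contains a nonzero element which is below `f y'`
for all `y'` in an open neighbourhood of `y` -/
theorem op_of {f : Y → B} (h : ∀ y, ∀ b : B, b ≠ ⊥ → b ≤ f y → ∃ c : B, c ≠ ⊥ ∧ c ≤ b ∧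
    ∃ U : Set Y, IsOpen U ∧ y ∈ U ∧ ∀ y' ∈ U, c ≤ f y') : Op f := by
  intro y
  by_contra hs
  have hb : f y ⊓ (⨆ b : {b : Set Y // IsOpen b ∧ y ∈ b}, ⨅ y' : b.1, f y')ᶜ ≠ ⊥ := by
    intro h0
    exact hs (disjoint_compl_right_iff.1 (disjoint_iff.2 h0))
  obtain ⟨c, hc0, hcb, U, hU, hyU, hcU⟩ := h y _ hb inf_le_left
  apply hc0
  have h1 : c ≤ ⨆ b : {b : Set Y // IsOpen b ∧ y ∈ b}, ⨅ y' : b.1, f y' :=
    le_iSup_of_le ⟨U, hU, hyU⟩ (le_iInf fun y' => hcU y'.1 y'.2)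
  have h2 : c ≤ (⨆ b : {b : Set Y // IsOpen b ∧ y ∈ b}, ⨅ y' : b.1, f y')ᶜ :=
    hcb.trans inf_le_right
  exact le_bot_iff.1 ((le_inf h1 h2).trans (le_of_eq (inf_compl_self _)))

theorem op_inf {f g : Y → B} (hf : Op f) (hg : Op g) : Op (fun y => f y ⊓ g y) := by
  intro y
  refine (inf_le_inf (hf y) (hg y)).trans ?_
  rw [iSup_inf_eq]
  refine iSup_le fun b => ?_
  rw [inf_iSup_eq]
  refine iSup_le fun b' => ?_
  refine le_iSup_of_le ⟨b.1 ∩ b'.1, b.2.1.inter b'.2.1, b.2.2, b'.2.2⟩ ?_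
  refine le_iInf fun y' => le_inf ?_ ?_
  · exact inf_le_left.trans (iInf_le_of_le ⟨y'.1, y'.2.1⟩ le_rfl)
  · exact inf_le_right.trans (iInf_le_of_le ⟨y'.1, y'.2.2⟩ le_rfl)

theorem op_iSup {ι : Type} {f : ι → Y → B} (hf : ∀ i, Op (f i)) : Op (fun y => ⨆ i, f i y) := by
  intro y
  refine iSup_le fun i => (hf i y).trans ?_
  refine iSup_mono fun b => ?_
  refine iInf_mono fun y' => ?_
  exact le_iSup (fun j => f j y'.1) i

theorem op_const_inf (a : B) {f : Y → B} (hf : Op f) : Op (fun y => a ⊓ f y) := by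
  intro y
  refine (inf_le_inf_left a (hf y)).trans ?_
  rw [inf_iSup_eq]
  refine iSup_mono fun b => ?_
  exact le_iInf fun y' => inf_le_inf_left a (iInf_le _ y')

open Classical in
/-- the characteristic function -/
noncomputable def chi (B : Type) [CompleteBooleanAlgebra B] (O : Set Y) (y : Y) : B :=
  if y ∈ O then ⊤ else ⊥

theorem chi_mem {O : Set Y} {y : Y} (h : y ∈ O) : chi B O y = ⊤ := if_pos h

theorem chi_not_mem {O : Set Y} {y : Y} (h : y ∉ O) : chi B O y = ⊥ := if_neg h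

theorem op_chi {O : Set Y} (hO : IsOpen O) : Op (chi B O) := by
  intro y
  by_cases h : y ∈ O
  · refine le_iSup_of_le ⟨O, hO, h⟩ (le_iInf fun y' => ?_)
    rw [chi_mem y'.2]
    exact le_top
  · rw [chi_not_mem h]
    exact bot_le

end Pool.Agent.Lib.MP_473540_gtM
end
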