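import Mathlib
import Pool.Agent.Lib.MP_473540_gtM.BV.OpL
import Pool.Agent.Lib.MP_473540_gtM.BV.Coll

/-!
# Normality: the separating sets are open
-/

set_option autoImplicit false

namespace Pool.Agent.Lib.MP_473540_gtM

open Pool.Agent.Lib.SymZF Pool.Agent.Lib.SymZF.SymSys Pool.Agent.Lib.RM48 Pool.Agent.Lib.KZF

variable {B : Type} [CompleteBooleanAlgebra B] {Y : Type} [TopologicalSpace Y] {Λ : Type}

/-- The Boolean value of: `y` is in the `n`-th set of the generic enumeration of the family, and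
this set is contained in one of the two open sets. -/
noncomputable def act (c : Coll Λ B) (C : Λ → Set Y) (a b : Λ → B) (n : ℕ) (y : Y) : B :=
  ⨆ i : {i : Λ // y ∈ C i}, c.e n i.1 ⊓ (a i.1 ⊔ b i.1)

/-- the first separating set: the points for which the first active set is contained in the second
open set -/
noncomputable def w1 (c : Coll Λ B) (C : Λ → Set Y) (a b : Λ → B) (y : Y) : B :=
  ⨆ n : ℕ, ⨆ i : {i : Λ // y ∈ C i}, c.e n i.1 ⊓ b i.1 ⊓ ⨅ m : Fin n, (act c C a b m y)ᶜ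

/-- the second separating set: the points for which the first active set is not contained in the
second open set -/
noncomputable def w2 (c : Coll Λ B) (C : Λ → Set Y) (a b : Λ → B) (y : Y) : B :=
  ⨆ n : ℕ, ⨆ i : {i : Λ // y ∈ C i}, c.e n i.1 ⊓ (a i.1 ⊓ (b i.1)ᶜ) ⊓
    ⨅ m : Fin n, (act c C a b m y)ᶜ

private theorem norW_choose (c : Coll Λ B) (n : ℕ) (x : B) (hx : x ≠ ⊥) :
    ∃ j : Fin n → Λ, x ⊓ ⨅ m : Fin n, c.e m (j m) ≠ ⊥ := by
  induction n with
  | zero => exact ⟨fun m => m.elim0, by simpa using hx⟩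
  | succ n ih =>
    obtain ⟨j, hj⟩ := ih
    have h1 : (x ⊓ ⨅ m : Fin n, c.e m (j m)) ⊓ ⨆ i, c.e n i ≠ ⊥ := by
      rw [c.e_sup n, inf_top_eq]
      exact hj
    rw [inf_iSup_eq] at h1
    obtain ⟨i, hi⟩ : ∃ i, (x ⊓ ⨅ m : Fin n, c.e m (j m)) ⊓ c.e n i ≠ ⊥ := by
      by_contra hcon
      push Not at hcon
      exact h1 (by simp [hcon])
    refine ⟨Fin.snoc (α := fun _ => Λ) j i, ?_⟩
    intro h2
    apply hi
    rw [eq_bot_iff, ← h2]
    refine le_inf (inf_le_left.trans inf_le_left) (le_iInf fun m => ?_)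
    refine Fin.lastCases ?_ (fun m => ?_) m
    · rw [Fin.snoc_last]
      exact inf_le_right
    · rw [Fin.snoc_castSucc]
      exact inf_le_left.trans (inf_le_right.trans (iInf_le _ m))

omit [TopologicalSpace Y] in
/-- the value of `act` is locally constant below `c.e m j` -/
private theorem norW_act (c : Coll Λ B) (C : Λ → Set Y) (a b : Λ → B) (m : ℕ) (j : Λ) (y y' : Y)
    (h : y' ∈ C j → y ∈ C j) : c.e m j ⊓ act c C a b m y' ≤ act c C a b m y := by
  unfold act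
  rw [inf_iSup_eq]
  refine iSup_le fun i => ?_
  by_cases hij : j = i.1
  · have h1 : y ∈ C i.1 := by
      rw [← hij]
      exact h (by rw [hij]; exact i.2)
    exact inf_le_right.trans
      (le_iSup (fun i : {i : Λ // y ∈ C i} => c.e m i.1 ⊓ (a i.1 ⊔ b i.1)) ⟨i.1, h1⟩)
  · have h1 := c.e_dis m j i.1 hij
    rw [← inf_assoc, h1, bot_inf_eq]
    exact bot_le

/-- **Sets defined by the generic enumeration are open.** -/
theorem wg_open (c : Coll Λ B) (C : Λ → Set Y) (hC : ∀ i, IsClopen (C i)) (a b g : Λ → B) :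
    Op (fun y => ⨆ n : ℕ, ⨆ i : {i : Λ // y ∈ C i}, c.e n i.1 ⊓ g i.1 ⊓
      ⨅ m : Fin n, (act c C a b m y)ᶜ) := by
  -- `op_of`: let `x ≠ ⊥` be below the value `w y` at `y`. Then `x₁ = x ⊓ (term for some n, i) ≠ ⊥`
  -- (`y ∈ C i`). For every `m < n` choose successively `j m` with
  -- `x₂ = x₁ ⊓ ⨅ m < n, c.e m (j m) ≠ ⊥` (`c.e_sup m`: induction on `n`). Let `U` be the intersection
  -- of `C i` and, for `m < n`, of `C (j m)` if `y ∈ C (j m)`, of its complement otherwise: open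
  -- (`isOpen_iInter_of_finite`), `y ∈ U`. Claim: `x₂ ≤ w y'` for `y' ∈ U`: the term for `n`, `i`:
  -- `x₂ ≤ c.e n i ⊓ g i`; `x₂ ⊓ act m y' = ⊥` for `m < n`: `x₂ ≤ c.e m (j m)`, so
  -- `x₂ ⊓ act m y' ≤ ⨆ i' with y' ∈ C i', c.e m (j m) ⊓ c.e m i' ⊓ (a i' ⊔ b i')`, only `i' = j m`
  -- counts (`c.e_dis`), and `y' ∈ C (j m) ↔ y ∈ C (j m)`, so this is `≤ act m y`, disjoint to `x₂`.
  classical
  refine op_of fun y x hx hxle => ?_
  have h1 : x ⊓ (⨆ n : ℕ, ⨆ i : {i : Λ // y ∈ C i}, c.e n i.1 ⊓ g i.1 ⊓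
      ⨅ m : Fin n, (act c C a b m y)ᶜ) ≠ ⊥ := by
    rw [inf_eq_left.2 hxle]
    exact hx
  obtain ⟨n, i, hni⟩ : ∃ (n : ℕ) (i : {i : Λ // y ∈ C i}), x ⊓ (c.e n i.1 ⊓ g i.1 ⊓
      ⨅ m : Fin n, (act c C a b m y)ᶜ) ≠ ⊥ := by
    by_contra hcon
    push Not at hcon
    apply h1
    rw [inf_iSup_eq]
    simp only [inf_iSup_eq, hcon, iSup_bot]
  obtain ⟨j, hj⟩ := norW_choose c n _ hni
  refine ⟨_, hj, inf_le_left.trans inf_le_left,
    C i.1 ∩ ⋂ m : Fin n, (if y ∈ C (j m) then C (j m) else (C (j m))ᶜ), ?_, ?_, ?_⟩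
  · refine (hC i.1).isOpen.inter (isOpen_iInter_of_finite fun m => ?_)
    split
    · exact (hC _).isOpen
    · exact (hC _).compl.isOpen
  · refine ⟨i.2, Set.mem_iInter.2 fun m => ?_⟩
    split
    · assumption
    · assumption
  · intro y' hy'
    refine le_trans ?_ (le_iSup_of_le n (le_iSup (fun i : {i : Λ // y' ∈ C i} =>
      c.e n i.1 ⊓ g i.1 ⊓ ⨅ m : Fin n, (act c C a b m y')ᶜ) ⟨i.1, hy'.1⟩))
    refine le_inf (inf_le_left.trans (inf_le_right.trans inf_le_left)) (le_iInf fun m => ?_)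
    rw [le_compl_iff_disjoint_right]
    rw [disjoint_iff, eq_bot_iff]
    have h2 : y' ∈ C (j m) → y ∈ C (j m) := by
      intro h3
      by_contra h4
      have h5 := Set.mem_iInter.1 hy'.2 m
      rw [if_neg h4] at h5
      exact h5 h3
    have h3 := norW_act c C a b m (j m) y y' h2
    have h4 : x ⊓ (c.e n i.1 ⊓ g i.1 ⊓ ⨅ m : Fin n, (act c C a b m y)ᶜ) ≤
        (act c C a b m y)ᶜ := inf_le_right.trans (inf_le_right.trans (iInf_le _ m))
    calc _ ≤ (act c C a b m y)ᶜ ⊓ (c.e m (j m) ⊓ act c C a b m y') := by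
          refine le_inf ?_ (le_inf ?_ inf_le_right)
          · exact inf_le_left.trans (inf_le_left.trans h4)
          · exact inf_le_left.trans (inf_le_right.trans (iInf_le _ m))
      _ ≤ (act c C a b m y)ᶜ ⊓ act c C a b m y := inf_le_inf le_rfl h3
      _ = ⊥ := compl_inf_eq_bot

theorem w1_open (c : Coll Λ B) (C : Λ → Set Y) (hC : ∀ i, IsClopen (C i)) (a b : Λ → B) :
    Op (w1 c C a b) := wg_open c C hC a b b

theorem w2_open (c : Coll Λ B) (C : Λ → Set Y) (hC : ∀ i, IsClopen (C i)) (a b : Λ → B) :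
    Op (w2 c C a b) := wg_open c C hC a b (fun i => a i ⊓ (b i)ᶜ)

end Pool.Agent.Lib.MP_473540_gtM
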