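import Mathlib
import Pool.Agent.Lib.RM48.Names
import Pool.Agent.Lib.MP_473540_gtM.BV.Fml
import Pool.Agent.Lib.SymZF.Internal
import Pool.Agent.Lib.MP_473540_gtM.BV.OpL
import Pool.Agent.Lib.MP_473540_gtM.BigCof
import Pool.Agent.Lib.MP_473540_gtM.BV.Coll
import Pool.Agent.Lib.MP_473540_gtM.BV.NorW

section

/-!
# Names for the points
-/

set_option autoImplicit false

namespace Pool.Agent.Lib.MP_473540_gtM

open Pool.Agent.Lib.SymZF Pool.Agent.Lib.SymZF.SymSys Pool.Agent.Lib.RM48 Pool.Agent.Lib.KZF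

/-- **Different names for the elements of a set.** -/
theorem exists_pt (B : Type) [CompleteBooleanAlgebra B] (Y : Type) :
    ∃ pt : Y → (tS B).HSet, ∀ y y', y ≠ y' → (pt y).eq (pt y') = ⊥ := by
  have wf : WellFounded (WellOrderingRel : Y → Y → Prop) := IsWellFounded.wf
  obtain ⟨pt, hpt⟩ : ∃ pt : Y → (tS B).HSet,
      ∀ y, pt y = fm (fun z : {z // WellOrderingRel z y} => pt z.1) (fun _ => ⊤) :=
    ⟨wf.fix fun y g => fm (fun z : {z // WellOrderingRel z y} => g z.1 z.2) (fun _ => ⊤),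
      fun y => wf.fix_eq _ y⟩
  have hmem : ∀ z y, WellOrderingRel z y → (pt z).mem (pt y) = ⊤ := by
    intro z y h
    rw [hpt y]
    exact mem_fm_top (fun z : {z // WellOrderingRel z y} => pt z.1) ⟨z, h⟩
  have hbot : ∀ z y, (y = z ∨ WellOrderingRel z y) → (pt y).mem (pt z) = ⊥ := by
    intro z
    induction z using wf.induction with
    | _ z ih =>
      intro y hy
      rw [hpt z, mem_fm, ← le_bot_iff]
      refine iSup_le fun w => ?_
      rw [top_inf_eq]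
      have hwy : WellOrderingRel w.1 y := by
        rcases hy with rfl | hy
        · exact w.2
        · exact _root_.trans w.2 hy
      have h1 := HSet.mem_congr_right (pt w.1) (pt y) (pt w.1)
      rw [hmem w.1 y hwy, inf_top_eq, ih w.1 w.2 w.1 (Or.inl rfl)] at h1
      exact h1
  refine ⟨pt, fun y y' h => ?_⟩
  wlog hlt : WellOrderingRel y y' generalizing y y'
  · rw [HSet.eq_symm]
    exact this y' y h.symm
      (((trichotomous_of WellOrderingRel y y').resolve_left hlt).resolve_left h)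
  have h1 := HSet.mem_congr_right (pt y) (pt y') (pt y)
  rw [hmem y y' hlt, inf_top_eq, hbot y y (Or.inl rfl), HSet.eq_symm] at h1
  exact le_bot_iff.1 h1

end Pool.Agent.Lib.MP_473540_gtM
end

section

/-!
# The meaning of the formulas in a model of `ZF`
-/

set_option autoImplicit false

namespace Pool.Agent.Lib.MP_473540_gtM

open Pool.Agent.Lib.SymZF Pool.Agent.Lib.SymZF.SymSys Pool.Agent.Lib.RM48 Pool.Agent.Lib.KZF

variable {M : Type} {E : M → M → Prop} (C : ℕ → BF)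

/-- `fOm` means `v i = ω` -/
theorem satX_fOm (hZ : IsZF E) (v : ℕ → M) (i : ℕ) :
    SatX E C (fOm i) v ↔ IsOmega E (v i) := by
  simp only [fOm, satX_and, satX_real, satX_all, satX_imp, satX_mem, scons_zero, scons_one,
    scons_succ]
  obtain ⟨w₀, hw₀⟩ := omega_ex hZ
  constructor
  · rintro ⟨⟨w, hw, h1⟩, h2⟩
    have h3 : v i = w₀ := by
      apply hZ.ext
      intro z
      constructor
      · intro hz
        rw [← omega_unique hZ hw hw₀]
        exact h1 z hz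
      · intro hz
        exact h2 w₀ ⟨w₀, hw₀, fun z hz => hz⟩ z hz
    rw [h3]
    exact hw₀
  · intro h
    refine ⟨⟨v i, h, fun z hz => hz⟩, ?_⟩
    rintro z ⟨w, hw, h1⟩ t ht
    rw [omega_unique hZ h hw]
    exact h1 t ht

/-- **The sentence in a model of `ZF`.** -/
theorem example_of_sat (hZ : IsZF E) (v : ℕ → M) (h : SatX E C fSent v) :
    ∃ X T, IsExample E X T := by
  have hOm := satX_fOm C hZ
  simp only [fSent, fBody, fTopA, fTopB, fTopC, fT1, fNor, fLin, fNL, fSub, fCov, fCsc, fCtb, hOm,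
    satX_ex, satX_and, satX_or, satX_iff, satX_neg, satX_all, satX_imp, satX_mem, satX_eq,
    satX_xRel, scons_zero, scons_one, scons_two, scons_three, scons_four, scons_succ,
    Nat.reduceAdd, Nat.zero_add] at h
  obtain ⟨X, T, h1, h2, h3, h4, h5, h6, h7, h8⟩ := h
  refine ⟨X, T, ⟨h1, h2, fun U V hU hV => h3 U V hU hV, h4⟩, h5, ?_, ?_, ?_⟩
  · rintro F G ⟨hF, U₁, hU₁, hFU⟩ ⟨hG, U₂, hU₂, hGU⟩ hdis
    obtain ⟨V₁, V₂, hV₁, hV₂, h9, h10, h11⟩ := h6 U₁ U₂ hU₁ hU₂ (by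
      intro x hx
      by_contra hcon
      rw [not_or] at hcon
      exact hdis x ⟨(hFU x hx).2 hcon.1, (hGU x hx).2 hcon.2⟩)
    refine ⟨V₁, V₂, hV₁, hV₂, ?_, ?_, h11⟩
    · intro x hx
      rcases h9 x (hF x hx) with h12 | h12
      · exact absurd h12 ((hFU x (hF x hx)).1 hx)
      · exact h12
    · intro x hx
      rcases h10 x (hG x hx) with h12 | h12
      · exact absurd h12 ((hGU x (hG x hx)).1 hx)
      · exact h12
  · intro 𝒰 h9 h10 h11
    obtain ⟨V, h12, ⟨w, f, h13, h14⟩, h15⟩ := h7 𝒰 h9 h10 h11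
    exact ⟨V, h12, ⟨w, f, h13, h14⟩, h15⟩
  · obtain ⟨𝒰, h9, h10, h11⟩ := h8
    intro hL
    obtain ⟨V, h12, ⟨w, f, h13, h14⟩, h15⟩ := hL 𝒰 h9 h10
    exact h11 ⟨V, h12, ⟨w, f, h13, h14⟩, h15⟩

end Pool.Agent.Lib.MP_473540_gtM
end

section

/-!
# The `T₁` axiom
-/

set_option autoImplicit false

namespace Pool.Agent.Lib.MP_473540_gtM

open Pool.Agent.Lib.SymZF Pool.Agent.Lib.SymZF.SymSys Pool.Agent.Lib.RM48 Pool.Agent.Lib.KZF

variable {B : Type} [CompleteBooleanAlgebra B] {Y : Type} [TopologicalSpace Y]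
  {pt : Y → (tS B).HSet}

theorem t1_axiom [T1Space Y] (hpt : Inj pt) (x y : (tS B).HSet) :
    x.mem (XX pt) ⊓ y.mem (XX pt) ⊓ (x.eq y)ᶜ ≤
      ⨆ U : (tS B).HSet, U.mem (TT pt) ⊓ (x.mem U ⊓ (y.mem U)ᶜ) := by
  -- `mem_XX`: `x.eq (pt a)`, `y.eq (pt b)`. If `a = b` then `x.eq (pt a) ⊓ y.eq (pt a) ≤ x.eq y`. If
  -- `a ≠ b` take `U = sb pt (chi B {b}ᶜ)` (`op_chi`, `isOpen_compl_singleton`): `(pt a).mem U = ⊤`,
  -- `(pt b).mem U = ⊥` (`mem_sb`), `HSet.mem_congr_left`: `x.eq (pt a) ≤ x.mem U` and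
  -- `y.eq (pt b) ⊓ y.mem U ≤ (pt b).mem U = ⊥` (`le_compl_iff_disjoint_right`, `disjoint_iff`)
  rw [mem_XX, mem_XX, iSup_inf_eq, iSup_inf_eq]
  refine iSup_le fun a => ?_
  rw [inf_iSup_eq, iSup_inf_eq]
  refine iSup_le fun b => ?_
  by_cases hab : a = b
  · subst hab
    have h1 : x.eq (pt a) ⊓ y.eq (pt a) ≤ x.eq y := by
      rw [HSet.eq_symm y (pt a)]
      exact HSet.eq_trans _ _ _
    have h2 : x.eq (pt a) ⊓ y.eq (pt a) ⊓ (x.eq y)ᶜ ≤ ⊥ :=
      (inf_le_inf_right _ h1).trans (by rw [inf_compl_self])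
    exact h2.trans bot_le
  · have hO : IsOpen ({b}ᶜ : Set Y) := isOpen_compl_singleton
    refine le_iSup_of_le (sb pt (chi B {b}ᶜ)) ?_
    rw [sb_mem_TT (op_chi hO), top_inf_eq]
    have ha : (pt a).mem (sb pt (chi B {b}ᶜ)) = ⊤ := by
      rw [mem_sb hpt]
      exact chi_mem (by simpa using hab)
    have hb : (pt b).mem (sb pt (chi B {b}ᶜ)) = ⊥ := by
      rw [mem_sb hpt]
      exact chi_not_mem (by simp)
    have h1 : x.eq (pt a) ≤ x.mem (sb pt (chi B {b}ᶜ)) := by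
      have h3 := HSet.mem_congr_left (pt a) x (sb pt (chi B {b}ᶜ))
      rwa [ha, inf_top_eq, HSet.eq_symm] at h3
    have h2 : y.eq (pt b) ≤ (y.mem (sb pt (chi B {b}ᶜ)))ᶜ := by
      rw [le_compl_iff_disjoint_right, disjoint_iff]
      have h3 := HSet.mem_congr_left y (pt b) (sb pt (chi B {b}ᶜ))
      rw [hb] at h3
      exact le_antisymm h3 bot_le
    exact inf_le_left.trans (inf_le_inf h1 h2)

end Pool.Agent.Lib.MP_473540_gtM
end

section

/-!
# The topology axioms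
-/

set_option autoImplicit false

namespace Pool.Agent.Lib.MP_473540_gtM

open Pool.Agent.Lib.SymZF Pool.Agent.Lib.SymZF.SymSys Pool.Agent.Lib.RM48 Pool.Agent.Lib.KZF

variable {B : Type} [CompleteBooleanAlgebra B] {Y : Type} [TopologicalSpace Y]
  {pt : Y → (tS B).HSet}

/-- the elements of the topology are subsets -/
theorem top_sub (U : (tS B).HSet) : U.mem (TT pt) ≤ bsub U (XX pt) := by
  rw [mem_TT]
  refine iSup_le fun F => ?_
  have h := bsub_congr (sb pt F.1) (XX pt) U (XX pt)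
  rw [HSet.eq_refl, bsub_sb_XX] at h
  refine le_trans ?_ h
  rw [HSet.eq_symm]
  exact le_inf (le_inf le_rfl le_top) le_top

/-- the whole space -/
theorem top_univ : (XX pt).mem (TT pt) = ⊤ := by
  show (sb pt (fun _ : Y => (⊤ : B))).mem (TT pt) = ⊤
  exact sb_mem_TT op_top

omit [TopologicalSpace Y] in
private lemma le_mem_sb (f : Y → B) (x : (tS B).HSet) (y : Y) :
    f y ⊓ x.eq (pt y) ≤ x.mem (sb pt f) := by
  rw [mem_sb']
  exact le_iSup (fun y => f y ⊓ x.eq (pt y)) y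

omit [TopologicalSpace Y] in
private lemma mem_inf_mem (hpt : Inj pt) (f g : Y → B) (x : (tS B).HSet) :
    x.mem (sb pt f) ⊓ x.mem (sb pt g) ≤ x.mem (sb pt (fun y => f y ⊓ g y)) := by
  rw [mem_sb' f, mem_sb' g, iSup_inf_iSup]
  refine iSup_le fun q => ?_
  by_cases h : q.1 = q.2
  · rw [← h]
    refine le_trans ?_ (le_mem_sb (fun y => f y ⊓ g y) x q.1)
    exact le_inf (inf_le_inf inf_le_left inf_le_left) (inf_le_left.trans inf_le_right)
  · have h1 : x.eq (pt q.1) ⊓ x.eq (pt q.2) ≤ ⊥ := by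
      rw [← hpt q.1 q.2 h, HSet.eq_symm x (pt q.1)]
      exact HSet.eq_trans _ _ _
    exact ((inf_le_inf inf_le_right inf_le_right).trans h1).trans bot_le

/-- intersections -/
theorem top_inter (hpt : Inj pt) (U V : (tS B).HSet) : U.mem (TT pt) ⊓ V.mem (TT pt) ≤
    ⨆ W : (tS B).HSet, W.mem (TT pt) ⊓
      ⨅ x : (tS B).HSet, (x.mem W ⇨ x.mem U ⊓ x.mem V) ⊓ (x.mem U ⊓ x.mem V ⇨ x.mem W) := by
  rw [mem_TT, mem_TT, iSup_inf_iSup]
  refine iSup_le fun q => ?_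
  obtain ⟨F, G⟩ := q
  refine le_iSup_of_le (sb pt (fun y => F.1 y ⊓ G.1 y)) (le_inf ?_ (le_iInf fun x => le_inf ?_ ?_))
  · rw [sb_mem_TT (op_inf F.2 G.2)]
    exact le_top
  · rw [le_himp_iff, mem_sb' (fun y => F.1 y ⊓ G.1 y) x, inf_iSup_eq]
    refine iSup_le fun y => le_inf ?_ ?_
    · have h1 : (sb pt F.1).eq U ⊓ x.mem (sb pt F.1) ≤ x.mem U := HSet.mem_congr_right _ _ _
      rw [HSet.eq_symm] at h1
      refine le_trans (le_inf (inf_le_left.trans inf_le_left) ?_) h1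
      refine le_trans ?_ (le_mem_sb F.1 x y)
      exact inf_le_right.trans (inf_le_inf_right _ inf_le_left)
    · have h1 : (sb pt G.1).eq V ⊓ x.mem (sb pt G.1) ≤ x.mem V := HSet.mem_congr_right _ _ _
      rw [HSet.eq_symm] at h1
      refine le_trans (le_inf (inf_le_left.trans inf_le_right) ?_) h1
      refine le_trans ?_ (le_mem_sb G.1 x y)
      exact inf_le_right.trans (inf_le_inf_right _ inf_le_right)
  · rw [le_himp_iff]
    refine le_trans ?_ (mem_inf_mem hpt F.1 G.1 x)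
    refine le_inf ?_ ?_
    · refine le_trans ?_ (HSet.mem_congr_right x U (sb pt F.1))
      exact inf_le_inf inf_le_left inf_le_left
    · refine le_trans ?_ (HSet.mem_congr_right x V (sb pt G.1))
      exact inf_le_inf inf_le_right inf_le_right

/-- unions -/
theorem top_union (hpt : Inj pt) (S : (tS B).HSet) : bsub S (TT pt) ≤ ⨆ W : (tS B).HSet,
    W.mem (TT pt) ⊓ ⨅ x : (tS B).HSet,
      (x.mem W ⇨ ⨆ U : (tS B).HSet, U.mem S ⊓ x.mem U) ⊓
      ((⨆ U : (tS B).HSet, U.mem S ⊓ x.mem U) ⇨ x.mem W) := by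
  set f : Y → B := fun y => ⨆ F : {f : Y → B // Op f}, (sb pt F.1).mem S ⊓ F.1 y with hf
  have hop : Op f := op_iSup (fun F : {f : Y → B // Op f} => op_const_inf _ F.2)
  refine le_iSup_of_le (sb pt f) (le_inf ?_ (le_iInf fun x => le_inf ?_ ?_))
  · rw [sb_mem_TT hop]
    exact le_top
  · rw [le_himp_iff]
    refine inf_le_right.trans ?_
    rw [mem_sb' f x]
    refine iSup_le fun y => ?_
    rw [hf]
    simp only
    rw [iSup_inf_eq]
    refine iSup_le fun F => ?_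
    refine le_iSup_of_le (sb pt F.1) (le_inf (inf_le_left.trans inf_le_left) ?_)
    refine le_trans ?_ (le_mem_sb F.1 x y)
    exact inf_le_inf_right _ inf_le_right
  · rw [le_himp_iff, inf_iSup_eq]
    refine iSup_le fun U => ?_
    have h1 : bsub S (TT pt) ⊓ U.mem S ≤ ⨆ F : {f : Y → B // Op f}, U.eq (sb pt F.1) := by
      rw [← mem_TT]
      exact (inf_le_inf_right _ (iInf_le _ U)).trans himp_inf_le
    calc bsub S (TT pt) ⊓ (U.mem S ⊓ x.mem U)
        ≤ (⨆ F : {f : Y → B // Op f}, U.eq (sb pt F.1)) ⊓ (U.mem S ⊓ x.mem U) :=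
          le_inf (le_trans (inf_le_inf_left _ inf_le_left) h1) inf_le_right
      _ ≤ x.mem (sb pt f) := by
          rw [iSup_inf_eq]
          refine iSup_le fun F => ?_
          have h2 : U.eq (sb pt F.1) ⊓ (U.mem S ⊓ x.mem U) ≤
              (sb pt F.1).mem S ⊓ x.mem (sb pt F.1) := by
            refine le_inf ?_ ?_
            · exact (inf_le_inf_left _ inf_le_left).trans (HSet.mem_congr_left _ _ _)
            · exact (inf_le_inf_left _ inf_le_right).trans (HSet.mem_congr_right _ _ _)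
          refine h2.trans ?_
          rw [mem_sb' F.1 x, inf_iSup_eq]
          refine iSup_le fun y => ?_
          refine le_trans ?_ (le_mem_sb f x y)
          rw [← inf_assoc]
          refine inf_le_inf_right _ ?_
          exact le_iSup (fun F : {f : Y → B // Op f} => (sb pt F.1).mem S ⊓ F.1 y) F

end Pool.Agent.Lib.MP_473540_gtM
end

section

/-!
# Families of open sets which cover the space
-/

set_option autoImplicit false

namespace Pool.Agent.Lib.MP_473540_gtM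

open Pool.Agent.Lib.SymZF Pool.Agent.Lib.SymZF.SymSys Pool.Agent.Lib.RM48 Pool.Agent.Lib.KZF
open Cardinal

variable {B : Type} [CompleteBooleanAlgebra B] {Y : Type} [TopologicalSpace Y]

/-- `u f` is the Boolean value of: the set with the values `f` is in the cover. A family of open
functions `F i` which are in the cover at least with value `a i`. -/
structure Fam (u : (Y → B) → B) (A : Type) (a : A → B) (F : A → Y → B) : Prop where
  op : ∀ i, Op (F i)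
  le : ∀ i, a i ≤ u (F i)

/-- the family covers the space at least with value `r` -/
def FCov {A : Type} (a : A → B) (F : A → Y → B) (r : B) : Prop :=
  ∀ y, r ≤ ⨆ i, a i ⊓ F i y

/-- the cover is a chain at least with value `r₀` -/
def UChain (u : (Y → B) → B) (r₀ : B) : Prop :=
  ∀ f g : Y → B, Op f → Op g → r₀ ⊓ (u f ⊓ u g) ≤ (⨅ y, f y ⇨ g y) ⊔ ⨅ y, g y ⇨ f y

end Pool.Agent.Lib.MP_473540_gtM
end

section

/-!
# Normality: the algebra
-/

set_option autoImplicit false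

namespace Pool.Agent.Lib.MP_473540_gtM

open Pool.Agent.Lib.SymZF Pool.Agent.Lib.SymZF.SymSys Pool.Agent.Lib.RM48 Pool.Agent.Lib.KZF

variable {B : Type} [CompleteBooleanAlgebra B] {Y : Type} [TopologicalSpace Y] {Λ : Type}

theorem w_disjoint (c : Coll Λ B) (C : Λ → Set Y) (a b : Λ → B) (y : Y) :
    w1 c C a b y ⊓ w2 c C a b y = ⊥ := by
  -- the term of `w1` for `n`, `i` and the term of `w2` for `n'`, `i'`. `n < n'`: the first is
  -- `≤ act n`, the second `≤ (act n)ᶜ`; `n' < n` in the same way. `n = n'`, `i ≠ i'`: `c.e_dis`;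
  -- `i = i'`: `b i ⊓ (b i)ᶜ = ⊥`.
  rw [eq_bot_iff]
  unfold w1 w2
  rw [iSup_inf_eq]
  refine iSup_le fun n => ?_
  rw [iSup_inf_eq]
  refine iSup_le fun i => ?_
  rw [inf_iSup_eq]
  refine iSup_le fun n' => ?_
  rw [inf_iSup_eq]
  refine iSup_le fun i' => ?_
  rcases lt_trichotomy n n' with h | h | h
  · have h1 : c.e n i.1 ⊓ b i.1 ⊓ (⨅ m : Fin n, (act c C a b m y)ᶜ) ≤ act c C a b n y :=
      le_trans inf_le_left (le_trans (inf_le_inf_left _ le_sup_right)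
        (le_iSup (fun i : {i : Λ // y ∈ C i} => c.e n i.1 ⊓ (a i.1 ⊔ b i.1)) i))
    have h2 : c.e n' i'.1 ⊓ (a i'.1 ⊓ (b i'.1)ᶜ) ⊓ (⨅ m : Fin n', (act c C a b m y)ᶜ) ≤
        (act c C a b n y)ᶜ :=
      le_trans inf_le_right (iInf_le (fun m : Fin n' => (act c C a b m y)ᶜ) ⟨n, h⟩)
    exact le_trans (inf_le_inf h1 h2) (by rw [inf_compl_eq_bot])
  · subst h
    by_cases hi : i = i'
    · subst hi
      have h1 : c.e n i.1 ⊓ b i.1 ⊓ (⨅ m : Fin n, (act c C a b m y)ᶜ) ≤ b i.1 :=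
        le_trans inf_le_left inf_le_right
      have h2 : c.e n i.1 ⊓ (a i.1 ⊓ (b i.1)ᶜ) ⊓ (⨅ m : Fin n, (act c C a b m y)ᶜ) ≤
          (b i.1)ᶜ :=
        le_trans inf_le_left (le_trans inf_le_right inf_le_right)
      exact le_trans (inf_le_inf h1 h2) (by rw [inf_compl_eq_bot])
    · have hi' : i.1 ≠ i'.1 := fun hh => hi (Subtype.ext hh)
      have h1 : c.e n i.1 ⊓ b i.1 ⊓ (⨅ m : Fin n, (act c C a b m y)ᶜ) ≤ c.e n i.1 :=
        le_trans inf_le_left inf_le_left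
      have h2 : c.e n i'.1 ⊓ (a i'.1 ⊓ (b i'.1)ᶜ) ⊓ (⨅ m : Fin n, (act c C a b m y)ᶜ) ≤
          c.e n i'.1 :=
        le_trans inf_le_left inf_le_left
      exact le_trans (inf_le_inf h1 h2) (by rw [c.e_dis n _ _ hi'])
  · have h1 : c.e n i.1 ⊓ b i.1 ⊓ (⨅ m : Fin n, (act c C a b m y)ᶜ) ≤ (act c C a b n' y)ᶜ :=
      le_trans inf_le_right (iInf_le (fun m : Fin n => (act c C a b m y)ᶜ) ⟨n', h⟩)
    have h2 : c.e n' i'.1 ⊓ (a i'.1 ⊓ (b i'.1)ᶜ) ⊓ (⨅ m : Fin n', (act c C a b m y)ᶜ) ≤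
        act c C a b n' y :=
      le_trans inf_le_left (le_trans
        (inf_le_inf_left _ (le_trans inf_le_left le_sup_left))
        (le_iSup (fun i : {i : Λ // y ∈ C i} => c.e n' i.1 ⊓ (a i.1 ⊔ b i.1)) i'))
    exact le_trans (inf_le_inf h1 h2) (by rw [inf_comm, inf_compl_eq_bot])

/-- some set of the generic enumeration is active, so there is a first one -/
theorem act_first (c : Coll Λ B) (C : Λ → Set Y) (a b : Λ → B) (y : Y) :
    (⨆ i : {i : Λ // y ∈ C i}, a i.1 ⊔ b i.1) ≤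
      ⨆ n : ℕ, act c C a b n y ⊓ ⨅ m : Fin n, (act c C a b m y)ᶜ := by
  -- (1) the left side is `≤ ⨆ n, act c C a b n y`: `a i ⊔ b i = (⨆ n, c.e n i) ⊓ (a i ⊔ b i)`
  -- (`c.e_surj`, `iSup_inf_eq`). (2) `act n ≤ ⨆ k, act k ⊓ ⨅ m : Fin k, (act m)ᶜ` by strong induction
  -- on `n`: `act n ≤ (act n ⊓ ⨅ m : Fin n, (act m)ᶜ) ⊔ ⨆ m : Fin n, act m` (`compl_iInf`).
  have hR : ∀ n : ℕ, act c C a b n y ≤
      ⨆ n : ℕ, act c C a b n y ⊓ ⨅ m : Fin n, (act c C a b m y)ᶜ := by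
    intro n
    induction n using Nat.strong_induction_on with
    | _ n ih =>
      have h1 : act c C a b n y ≤ (act c C a b n y ⊓ ⨅ m : Fin n, (act c C a b m y)ᶜ) ⊔
          (⨅ m : Fin n, (act c C a b m y)ᶜ)ᶜ := by
        calc act c C a b n y = act c C a b n y ⊓ ((⨅ m : Fin n, (act c C a b m y)ᶜ) ⊔
            (⨅ m : Fin n, (act c C a b m y)ᶜ)ᶜ) := by rw [sup_compl_eq_top, inf_top_eq]
          _ = (act c C a b n y ⊓ (⨅ m : Fin n, (act c C a b m y)ᶜ)) ⊔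
              (act c C a b n y ⊓ (⨅ m : Fin n, (act c C a b m y)ᶜ)ᶜ) := inf_sup_left _ _ _
          _ ≤ _ := sup_le_sup_left inf_le_right _
      refine le_trans h1 (sup_le ?_ ?_)
      · exact le_iSup (fun n : ℕ => act c C a b n y ⊓ ⨅ m : Fin n, (act c C a b m y)ᶜ) n
      · rw [compl_iInf]
        refine iSup_le fun m => ?_
        rw [compl_compl]
        exact ih m.1 m.2
  refine iSup_le fun i => ?_
  calc a i.1 ⊔ b i.1 = (⨆ n, c.e n i.1) ⊓ (a i.1 ⊔ b i.1) := by rw [c.e_surj, top_inf_eq]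
    _ = ⨆ n, c.e n i.1 ⊓ (a i.1 ⊔ b i.1) := iSup_inf_eq _ _
    _ ≤ _ := iSup_le fun n => le_trans
      (le_iSup (fun i : {i : Λ // y ∈ C i} => c.e n i.1 ⊓ (a i.1 ⊔ b i.1)) i) (hR n)

/-- **Normality, the algebra.** `f`, `g` are the values of two open sets with union `X`; `C i` is
contained in the first with value `a i` and in the second with value `b i`. -/
theorem nor_core (c : Coll Λ B) (C : Λ → Set Y) (hC : ∀ i, IsClopen (C i)) (a b : Λ → B)
    (f g : Y → B) (ha : ∀ i, ∀ y ∈ C i, a i ≤ f y) (hb : ∀ i, ∀ y ∈ C i, b i ≤ g y) (q : B)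
    (hq : ∀ y, q ≤ ⨆ i : {i : Λ // y ∈ C i}, a i.1 ⊔ b i.1) :
    ∃ v₁ v₂ : Y → B, Op v₁ ∧ Op v₂ ∧ (∀ y, v₁ y ⊓ v₂ y = ⊥) ∧ (∀ y, q ≤ f y ⊔ v₁ y) ∧
      ∀ y, q ≤ g y ⊔ v₂ y := by
  -- `v₁ = w1`, `v₂ = w2`. `q ≤ ⨆ n, act n y ⊓ ⨅ m, (act m y)ᶜ` (`act_first`), and
  -- `act n y = ⨆ i, c.e n i ⊓ (a i ⊔ b i)` with `a i ≤ f y`, so every term is
  -- `≤ f y ⊔ (c.e n i ⊓ b i ⊓ ⨅ m, ..)`; for `v₂`: `a i ⊔ b i ≤ b i ⊔ (a i ⊓ (b i)ᶜ) ≤ g y ⊔ ..`
  refine ⟨w1 c C a b, w2 c C a b, w1_open c C hC a b, w2_open c C hC a b, w_disjoint c C a b,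
    fun y => ?_, fun y => ?_⟩
  · refine le_trans (hq y) (le_trans (act_first c C a b y) (iSup_le fun n => ?_))
    have e1 : act c C a b n y = ⨆ i : {i : Λ // y ∈ C i}, c.e n i.1 ⊓ (a i.1 ⊔ b i.1) := rfl
    rw [e1, iSup_inf_eq]
    refine iSup_le fun i => ?_
    have e2 : c.e n i.1 ⊓ (a i.1 ⊔ b i.1) ⊓ (⨅ m : Fin n, (act c C a b m y)ᶜ) =
        (c.e n i.1 ⊓ a i.1 ⊓ ⨅ m : Fin n, (act c C a b m y)ᶜ) ⊔
        (c.e n i.1 ⊓ b i.1 ⊓ ⨅ m : Fin n, (act c C a b m y)ᶜ) := by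
      rw [inf_sup_left, inf_sup_right]
    rw [e2]
    refine sup_le_sup ?_ ?_
    · exact le_trans inf_le_left (le_trans inf_le_right (ha i.1 y i.2))
    · exact le_iSup_of_le n (le_iSup (fun i : {i : Λ // y ∈ C i} => c.e n i.1 ⊓ b i.1 ⊓
        ⨅ m : Fin n, (act c C a b m y)ᶜ) i)
  · refine le_trans (hq y) (le_trans (act_first c C a b y) (iSup_le fun n => ?_))
    have e1 : act c C a b n y = ⨆ i : {i : Λ // y ∈ C i}, c.e n i.1 ⊓ (a i.1 ⊔ b i.1) := rfl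
    rw [e1, iSup_inf_eq]
    refine iSup_le fun i => ?_
    have e3 : a i.1 ⊔ b i.1 = b i.1 ⊔ (a i.1 ⊓ (b i.1)ᶜ) := by
      rw [sup_inf_left, sup_compl_eq_top, inf_top_eq, sup_comm]
    have e2 : c.e n i.1 ⊓ (a i.1 ⊔ b i.1) ⊓ (⨅ m : Fin n, (act c C a b m y)ᶜ) =
        (c.e n i.1 ⊓ b i.1 ⊓ ⨅ m : Fin n, (act c C a b m y)ᶜ) ⊔
        (c.e n i.1 ⊓ (a i.1 ⊓ (b i.1)ᶜ) ⊓ ⨅ m : Fin n, (act c C a b m y)ᶜ) := by
      rw [e3, inf_sup_left, inf_sup_right]
    rw [e2]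
    refine sup_le_sup ?_ ?_
    · exact le_trans inf_le_left (le_trans inf_le_right (hb i.1 y i.2))
    · exact le_iSup_of_le n (le_iSup (fun i : {i : Λ // y ∈ C i} =>
        c.e n i.1 ⊓ (a i.1 ⊓ (b i.1)ᶜ) ⊓ ⨅ m : Fin n, (act c C a b m y)ᶜ) i)

end Pool.Agent.Lib.MP_473540_gtM
end

section

/-!
# Normality: the family of clopen sets below one condition
-/

set_option autoImplicit false

namespace Pool.Agent.Lib.MP_473540_gtM

open Pool.Agent.Lib.SymZF Pool.Agent.Lib.SymZF.SymSys Pool.Agent.Lib.RM48 Pool.Agent.Lib.KZF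

open Cardinal

variable {B : Type} [CompleteBooleanAlgebra B] {Y : Type} [TopologicalSpace Y] {Λ : Type}

private theorem nfo_hit (c : Coll Λ B) {f : Y → B} (hf : Op f) (e : Y) (d : B)
    (h : ¬ d ≤ (f e)ᶜ) : ∃ q ∈ c.D, q ≤ d ∧ ∃ U : Set Y, IsOpen U ∧ e ∈ U ∧ ∀ y' ∈ U, q ≤ f y' := by
  have h1 : d ⊓ (⨆ b : {b : Set Y // IsOpen b ∧ e ∈ b}, ⨅ y' : b.1, f y') ≠ ⊥ := by
    intro h0
    apply h
    have h2 : d ⊓ f e = ⊥ := le_bot_iff.1 ((inf_le_inf_left d (hf e)).trans h0.le)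
    exact (disjoint_iff.2 h2).le_compl_right
  rw [inf_iSup_eq] at h1
  obtain ⟨b, hb⟩ : ∃ b : {b : Set Y // IsOpen b ∧ e ∈ b}, d ⊓ (⨅ y' : b.1, f y') ≠ ⊥ := by
    by_contra h2
    push Not at h2
    exact h1 (by simp [h2])
  obtain ⟨q, hq, hqb⟩ := c.dense _ hb
  refine ⟨q, hq, hqb.trans inf_le_left, b.1, b.2.1, b.2.2, fun y' hy' => ?_⟩
  exact (hqb.trans inf_le_right).trans (iInf_le (fun y' : b.1 => f y') ⟨y', hy'⟩)

private theorem nfo_dis (c : Coll Λ B) {f : Y → B} {q : B} {U : Set Y} (h : ∀ y' ∈ U, q ≤ f y')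
    (r : c.D) (hr : r.1 ≤ q) : Disjoint U {y | r.1 ≤ (f y)ᶜ} := by
  rw [Set.disjoint_left]
  intro y hy hyr
  apply c.ne r.1 r.2
  have h1 : r.1 ≤ f y ⊓ (f y)ᶜ := le_inf (hr.trans (h y hy)) hyr
  rwa [inf_compl_self, le_bot_iff] at h1

private theorem nfo_le (c : Coll Λ B) {f : Y → B} (q : c.D) {C : Set Y}
    (h : ∀ r : c.D, r ≤ q → Disjoint C {y | r.1 ≤ (f y)ᶜ}) : ∀ y ∈ C, q.1 ≤ f y := by
  intro y hy
  by_contra h1
  have h2 : q.1 ⊓ (f y)ᶜ ≠ ⊥ := by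
    intro h0
    apply h1
    have h3 := (disjoint_iff.2 h0).le_compl_right
    rwa [compl_compl] at h3
  obtain ⟨r, hr, hrb⟩ := c.dense _ h2
  exact Set.disjoint_left.1 (h ⟨r, hr⟩ (hrb.trans inf_le_left)) hy (hrb.trans inf_le_right)

/-- the family below one condition -/
theorem nor_fam_one (c : Coll Λ B) (hY : MuSpace Λ Y) {f g : Y → B} (hf : Op f) (hg : Op g)
    (d₀ : B) (hd₀ : d₀ ∈ c.D) (hd : ∀ y, d₀ ≤ f y ⊔ g y) :
    ∃ C : Λ → Set Y, (∀ i, IsClopen (C i)) ∧ (∀ y, ∃ i, y ∈ C i) ∧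
      ∀ i, ∃ d ∈ c.D, d ≤ d₀ ∧ ((∀ y ∈ C i, d ≤ f y) ∨ ∀ y ∈ C i, d ≤ g y) := by
  -- `hY.sep` for `P = ↥c.D` (the order of `B`), `p₀ = ⟨d₀, hd₀⟩`, `H d = {y | d ≤ (f y)ᶜ}`,
  -- `K d = {y | d ≤ (g y)ᶜ}`. Conclusion: `q` with `C i ∩ H r = ∅` for all `r ≤ q`: then `q ≤ f y` for
  -- `y ∈ C i`: otherwise `q ⊓ (f y)ᶜ ≠ ⊥`, `c.dense` gives `r ∈ D`, `r ≤ q`, `r ≤ (f y)ᶜ`, `y ∈ H r`.
  -- Hypothesis: let `d ≤ d₀`, `e : Y`. If it fails then for all `q ∈ D`, `q ≤ d` and all open `U ∋ e`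
  -- there is `r ≤ q` in `D` with `U ∩ H r ≠ ∅`, and the same for `K`. Claim: `d ≤ (f e)ᶜ`: otherwise
  -- `d ⊓ f e ≠ ⊥`, `f e ≤ ⨆ b, ⨅ y' : b, f y'` (`hf`), so for some open `U ∋ e`:
  -- `d ⊓ ⨅ y' : U, f y' ≠ ⊥`, `c.dense` gives `q ∈ D` below it; there is `r ≤ q`, `y' ∈ U`,
  -- `r ≤ (f y')ᶜ` and `r ≤ f y'`: `r = ⊥`, contradiction to `c.ne`. In the same way `d ≤ (g e)ᶜ`; but
  -- `d ≤ d₀ ≤ f e ⊔ g e`: `d = ⊥`, contradiction.
  obtain ⟨b, hb1, hb2, hb3⟩ := hY.sep c.D ⟨d₀, hd₀⟩ (fun d => {y | d.1 ≤ (f y)ᶜ})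
    (fun d => {y | d.1 ≤ (g y)ᶜ}) c.cardD
    (fun p q hpq y hy => le_trans (show p.1 ≤ q.1 from hpq) hy)
    (fun p q hpq y hy => le_trans (show p.1 ≤ q.1 from hpq) hy) (by
      intro p hp e
      by_cases h1 : p.1 ≤ (f e)ᶜ
      · by_cases h2 : p.1 ≤ (g e)ᶜ
        · exfalso
          apply c.ne p.1 p.2
          have h3 : p.1 ≤ f e ⊔ g e := le_trans (show p.1 ≤ d₀ from hp) (hd e)
          have h4 : p.1 ≤ (f e ⊔ g e)ᶜ := by
            rw [compl_sup]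
            exact le_inf h1 h2
          have h5 := le_inf h3 h4
          rwa [inf_compl_self, le_bot_iff] at h5
        · obtain ⟨q, hq, hqp, U, hU, heU, hqU⟩ := nfo_hit c hg e p.1 h2
          exact ⟨⟨q, hq⟩, hqp, U, hU, heU, Or.inr fun r hr => nfo_dis c hqU r hr⟩
      · obtain ⟨q, hq, hqp, U, hU, heU, hqU⟩ := nfo_hit c hf e p.1 h1
        exact ⟨⟨q, hq⟩, hqp, U, hU, heU, Or.inl fun r hr => nfo_dis c hqU r hr⟩)
  refine ⟨b, hb1, hb2, fun i => ?_⟩
  obtain ⟨q, hq, h | h⟩ := hb3 i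
  · exact ⟨q.1, q.2, hq, Or.inl (nfo_le c q h)⟩
  · exact ⟨q.1, q.2, hq, Or.inr (nfo_le c q h)⟩

end Pool.Agent.Lib.MP_473540_gtM
end

section

/-!
# Sets enumerated by `Λ` are countable
-/

set_option autoImplicit false

namespace Pool.Agent.Lib.MP_473540_gtM

open Pool.Agent.Lib.SymZF Pool.Agent.Lib.SymZF.SymSys Pool.Agent.Lib.RM48 Pool.Agent.Lib.KZF
open Cardinal

variable {B : Type} [CompleteBooleanAlgebra B] {Y : Type} [TopologicalSpace Y] {Λ : Type}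
  {pt : Y → (tS B).HSet}

/-- Injectivity of ordered pairs. -/
private theorem opair_eq_le_aux (a b a' b' : (tS B).HSet) :
    ((a.opair b).eq (a'.opair b') : B) ≤ a.eq a' ⊓ b.eq b' := by
  have hl : ∀ x y : (tS B).HSet, x.mem (x.pair y) = ⊤ := fun x y => by
    rw [HSet.mem_pair, HSet.eq_refl, top_sup_eq]
  have hr : ∀ x y : (tS B).HSet, y.mem (x.pair y) = ⊤ := fun x y => by
    rw [HSet.mem_pair, HSet.eq_refl, sup_top_eq]
  have key : ∀ p w x y : (tS B).HSet, w.mem p = ⊤ → p.eq (x.pair y) ≤ w.eq x ⊔ w.eq y := by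
    intro p w x y h
    have h1 := HSet.mem_congr_right w p (x.pair y)
    rwa [h, inf_top_eq, HSet.mem_pair] at h1
  set P : B := (a.opair b).eq (a'.opair b') with hP
  have hP' : P = (a'.opair b').eq (a.opair b) := by rw [hP, HSet.eq_symm]
  have hA : P ≤ (a.pair a).eq (a'.pair a') ⊔ (a.pair a).eq (a'.pair b') :=
    key _ _ _ _ (hl _ _)
  have hB1 : P ≤ (a.pair b).eq (a'.pair a') ⊔ (a.pair b).eq (a'.pair b') :=
    key _ _ _ _ (hr _ _)
  have hB2 : P ≤ (a'.pair b').eq (a.pair a) ⊔ (a'.pair b').eq (a.pair b) := by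
    rw [hP']
    exact key _ _ _ _ (hr _ _)
  have e1 : P ≤ a.eq a' := by
    refine hA.trans (sup_le ?_ ?_)
    · have := key (a.pair a) a a' a' (hl _ _)
      rwa [sup_idem] at this
    · have := key (a'.pair b') a' a a (hl _ _)
      rw [sup_idem] at this
      rw [HSet.eq_symm (a.pair a), HSet.eq_symm a a']
      exact this
  have e2 : P ≤ b.eq a' ⊔ b.eq b' := by
    refine hB1.trans (sup_le ?_ ?_)
    · have := key (a.pair b) b a' a' (hr _ _)
      rw [sup_idem] at this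
      exact this.trans le_sup_left
    · exact key (a.pair b) b a' b' (hr _ _)
  have e3 : P ≤ b'.eq a ⊔ b'.eq b := by
    refine hB2.trans (sup_le ?_ ?_)
    · have := key (a'.pair b') b' a a (hr _ _)
      rw [sup_idem] at this
      exact this.trans le_sup_left
    · exact key (a'.pair b') b' a b (hr _ _)
  refine le_inf e1 ?_
  calc P ≤ a.eq a' ⊓ ((b.eq a' ⊔ b.eq b') ⊓ (b'.eq a ⊔ b'.eq b)) :=
        le_inf e1 (le_inf e2 e3)
    _ ≤ b.eq b' := by
        rw [inf_sup_left, inf_sup_left]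
        refine sup_le ?_ ?_
        · rw [inf_sup_right, inf_sup_left]
          refine sup_le ?_ ?_
          · calc a.eq a' ⊓ (b.eq a' ⊓ b'.eq a) ≤ (b.eq a' ⊓ a'.eq a) ⊓ a.eq b' := by
                  refine le_inf (le_inf (inf_le_right.trans inf_le_left) ?_) ?_
                  · rw [HSet.eq_symm a' a]; exact inf_le_left
                  · rw [HSet.eq_symm a b']; exact inf_le_right.trans inf_le_right
              _ ≤ b.eq a ⊓ a.eq b' := inf_le_inf_right _ (HSet.eq_trans _ _ _)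
              _ ≤ b.eq b' := HSet.eq_trans _ _ _
          · exact inf_le_right.trans inf_le_left
        · rw [HSet.eq_symm b' b]
          exact inf_le_right.trans inf_le_right

/-- **Sets enumerated by `Λ` are countable.** -/
theorem bctb_fm (c : Coll Λ B) (g : Λ → (tS B).HSet) (a : Λ → B) : bctb (fm g a) = ⊤ := by
  obtain ⟨f, hf⟩ : ∃ f : (tS B).HSet, f = fm (fun p : ℕ × Λ =>
      (HSet.num (tS B) p.1).opair (g p.2)) (fun p => c.e p.1 p.2) := ⟨_, rfl⟩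
  have hrel : ∀ (n : ℕ) (b : (tS B).HSet), relv f (HSet.num (tS B) n) b =
      ⨆ p : ℕ × Λ, c.e p.1 p.2 ⊓
        ((HSet.num (tS B) n).opair b).eq ((HSet.num (tS B) p.1).opair (g p.2)) := by
    intro n b
    rw [relv, hf, mem_fm]
  rw [bctb, eq_top_iff]
  refine le_iSup_of_le (HSet.om (tS B)) (le_iSup_of_le f ?_)
  rw [HSet.eq_refl, top_inf_eq, benum]
  refine le_iInf fun z => ?_
  rw [le_himp_iff, top_inf_eq, mem_fm]
  refine iSup_le fun i => ?_
  refine inf_le_right.trans ?_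
  have h1 : z.eq (g i) = ⨆ n, c.e n i ⊓ z.eq (g i) := by
    rw [← iSup_inf_eq, c.e_surj, top_inf_eq]
  rw [h1]
  refine iSup_le fun n => le_iSup_of_le (HSet.num (tS B) n) ?_
  have h2 : (HSet.num (tS B) n).mem (HSet.om (tS B)) = ⊤ := by
    rw [HSet.mem_om, eq_top_iff]
    exact le_iSup_of_le n (by rw [HSet.eq_refl])
  rw [h2, top_inf_eq, buniq]
  refine le_inf ?_ (le_iInf fun b => ?_)
  · rw [hrel]
    refine le_iSup_of_le (n, i) (inf_le_inf_left _ ?_)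
    have h5 : (HSet.num (tS B) n).eq (HSet.num (tS B) n) ⊓ z.eq (g i) ≤
        ((HSet.num (tS B) n).opair z).eq ((HSet.num (tS B) n).opair (g i)) :=
      HSet.opair_congr (S := tS B) _ _ _ _
    rw [HSet.eq_refl, top_inf_eq] at h5
    exact h5
  · rw [le_himp_iff, hrel, inf_iSup_eq]
    refine iSup_le fun p => ?_
    obtain ⟨m, j⟩ := p
    have h3 := opair_eq_le_aux (HSet.num (tS B) n) b (HSet.num (tS B) m) (g j)
    by_cases hm : n = m
    · subst hm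
      by_cases hj : i = j
      · subst hj
        refine le_trans ?_ (HSet.eq_trans b (g i) z)
        refine le_inf ?_ ?_
        · exact inf_le_right.trans (inf_le_right.trans (h3.trans inf_le_right))
        · rw [HSet.eq_symm (g i) z]
          exact inf_le_left.trans inf_le_right
      · have h4 : c.e n i ⊓ c.e n j ≤ b.eq z := by
          rw [c.e_dis n i j hj]
          exact bot_le
        exact (inf_le_inf inf_le_left inf_le_left).trans h4
    · rw [num_eq_bot hm, bot_inf_eq] at h3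
      exact inf_le_right.trans (inf_le_right.trans (h3.trans bot_le))

end Pool.Agent.Lib.MP_473540_gtM
end

section

/-!
# Families of regular cardinality can be made smaller
-/

set_option autoImplicit false

namespace Pool.Agent.Lib.MP_473540_gtM

open Pool.Agent.Lib.SymZF Pool.Agent.Lib.SymZF.SymSys Pool.Agent.Lib.RM48 Pool.Agent.Lib.KZF
open Cardinal

variable {B : Type} [CompleteBooleanAlgebra B] {Y : Type} [TopologicalSpace Y] {Λ : Type}

/-- **Regular cardinals**: a subfamily of smaller cardinality covers the space below some nonzero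
element. -/
theorem lin_reg (c : Coll Λ B) (hY : MuSpace Λ Y) {u : (Y → B) → B} {A : Type} {a : A → B}
    {F : A → Y → B} (hF : Fam u A a F) (hA : (#A).IsRegular) (hA' : #Λ < #A) {r : B} (hr : r ≠ ⊥)
    (hcov : FCov a F r) :
    ∃ s : Set A, #s < #A ∧ ∃ r' ≤ r, r' ≠ ⊥ ∧
      FCov (fun i : s => a i.1) (fun i : s => F i.1) r' := by
  classical
  by_contra hno
  have hno' : ∀ s : Set A, #s < #A → ∀ r' ≤ r, r' ≠ ⊥ →
      ¬ FCov (fun i : s => a i.1) (fun i : s => F i.1) r' := fun s h1 r' h2 h3 h4 =>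
    hno ⟨s, h1, r', h2, h3, h4⟩
  have hinf : ℵ₀ ≤ #A := hA.aleph0_le
  obtain ⟨e⟩ : Nonempty (A ≃ (#A).ord.ToType) := by
    rw [← Cardinal.eq, mk_ord_toType]
  have hs1 : ∀ ξ : A, #{i : A | e i < e ξ} < #A := by
    intro ξ
    refine lt_of_le_of_lt ?_ (mk_Iio_toType_ord_lt (e ξ))
    exact mk_preimage_of_injective e (Set.Iio (e ξ)) e.injective
  have hs2 : ∀ ξ : A, #{i : A | e i ≤ e ξ} < #A := by
    intro ξ
    have h : {i : A | e i ≤ e ξ} ⊆ insert ξ {i : A | e i < e ξ} := by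
      intro x hx
      rcases eq_or_lt_of_le (show e x ≤ e ξ from hx) with h | h
      · exact Or.inl (e.injective h)
      · exact Or.inr h
    refine (mk_le_mk_of_subset h).trans_lt ((mk_insert_le).trans_lt ?_)
    exact add_lt_of_lt hinf (hs1 ξ) (one_lt_aleph0.trans_le hinf)
  have key : ∀ ξ : A, ∃ (y : Y) (d : c.D), d.1 ≤ r ∧
      ∀ i, e i < e ξ → d.1 ⊓ (a i ⊓ F i y) = ⊥ := by
    intro ξ
    have h1 := hno' {i | e i < e ξ} (hs1 ξ) r le_rfl hr
    unfold FCov at h1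
    obtain ⟨y, hy⟩ := not_forall.1 h1
    have hb : r ⊓ (⨆ i : {i : A | e i < e ξ}, a i.1 ⊓ F i.1 y)ᶜ ≠ ⊥ := by
      intro h
      exact hy ((disjoint_compl_right_iff).1 (disjoint_iff.2 h))
    obtain ⟨d, hdD, hd⟩ := c.dense _ hb
    refine ⟨y, ⟨d, hdD⟩, hd.trans inf_le_left, fun i hi => ?_⟩
    have h2 : a i ⊓ F i y ≤ ⨆ i : {i : A | e i < e ξ}, a i.1 ⊓ F i.1 y :=
      le_iSup (fun i : {i : A | e i < e ξ} => a i.1 ⊓ F i.1 y) ⟨i, hi⟩
    have h3 : d ≤ (⨆ i : {i : A | e i < e ξ}, a i.1 ⊓ F i.1 y)ᶜ := hd.trans inf_le_right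
    refine le_bot_iff.1 ((inf_le_inf h3 h2).trans (le_of_eq ?_))
    rw [inf_comm, inf_compl_self]
  choose y d hdr hdd using key
  obtain ⟨d₀, hd₀⟩ := infinite_pigeonhole_card d (#A) le_rfl hinf
    (by rw [hA.cof_ord]; exact lt_of_le_of_lt c.cardD hA')
  have hJ : #(d ⁻¹' {d₀}) = #A := le_antisymm (mk_set_le _) hd₀
  obtain ⟨y₀, hy₀⟩ := hY.cap (d ⁻¹' {d₀}) (fun ξ => y ξ.1) (by rw [hJ]; exact hA)
    (by rw [hJ]; exact hA')
  rw [hJ] at hy₀
  have hd₀r : d₀.1 ≤ r := by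
    have hne : Nonempty (d ⁻¹' {d₀}) := by
      rw [← mk_ne_zero_iff, hJ]
      exact (aleph0_pos.trans_le hinf).ne'
    obtain ⟨ξ, hξ⟩ := hne
    have h : d ξ = d₀ := hξ
    rw [← h]
    exact hdr ξ
  have hd₀b : d₀.1 ≠ ⊥ := c.ne _ d₀.2
  have h1 : d₀.1 ⊓ (⨆ i, a i ⊓ F i y₀) ≠ ⊥ := by
    rwa [inf_eq_left.2 (hd₀r.trans (hcov y₀))]
  rw [inf_iSup_eq] at h1
  obtain ⟨i, hi⟩ : ∃ i, d₀.1 ⊓ (a i ⊓ F i y₀) ≠ ⊥ := by
    by_contra hcon
    push Not at hcon
    exact h1 (iSup_eq_bot.2 hcon)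
  have h2 : d₀.1 ⊓ (a i ⊓ F i y₀) ≤ ⨆ b : {b : Set Y // IsOpen b ∧ y₀ ∈ b},
      d₀.1 ⊓ (a i ⊓ ⨅ y' : b.1, F i y') := by
    refine (inf_le_inf_left _ (inf_le_inf_left _ (hF.op i y₀))).trans ?_
    rw [inf_iSup_eq, inf_iSup_eq]
  obtain ⟨U, hU⟩ : ∃ b : {b : Set Y // IsOpen b ∧ y₀ ∈ b},
      d₀.1 ⊓ (a i ⊓ ⨅ y' : b.1, F i y') ≠ ⊥ := by
    by_contra hcon
    push Not at hcon
    exact hi (le_bot_iff.1 (h2.trans (le_of_eq (iSup_eq_bot.2 hcon))))
  have hUc := hy₀ U.1 U.2.1 U.2.2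
  obtain ⟨ξ, hξd, hξU, hξi⟩ : ∃ ξ : A, d ξ = d₀ ∧ y ξ ∈ U.1 ∧ e i < e ξ := by
    by_contra hcon
    push Not at hcon
    have h3 : #{j : (d ⁻¹' {d₀}) // y j.1 ∈ U.1} ≤ #{j : A | e j ≤ e i} := by
      let g : {j : (d ⁻¹' {d₀}) // y j.1 ∈ U.1} → {j : A | e j ≤ e i} :=
        fun j => ⟨j.1.1, hcon j.1.1 j.1.2 j.2⟩
      refine mk_le_of_injective (f := g) ?_
      intro j j' hjj
      have h4 : j.1.1 = j'.1.1 := congrArg (fun w : {j : A | e j ≤ e i} => w.1) hjj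
      exact Subtype.ext (Subtype.ext h4)
    rw [hUc] at h3
    exact absurd h3 (not_le.2 (hs2 i))
  have h5 := hdd ξ i hξi
  rw [hξd] at h5
  apply hU
  refine le_bot_iff.1 (le_trans ?_ (le_of_eq h5))
  exact inf_le_inf_left _ (inf_le_inf_left _ (iInf_le (fun y' : U.1 => F i y'.1) ⟨y ξ, hξU⟩))

end Pool.Agent.Lib.MP_473540_gtM
end

section

/-!
# A member of the chain which contains a small subfamily
-/

set_option autoImplicit false

namespace Pool.Agent.Lib.MP_473540_gtM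

open Pool.Agent.Lib.SymZF Pool.Agent.Lib.SymZF.SymSys Pool.Agent.Lib.RM48 Pool.Agent.Lib.KZF
open Cardinal

variable {B : Type} [CompleteBooleanAlgebra B] {Y : Type} [TopologicalSpace Y] {Λ : Type}

/-- one member of the cover which contains the union of a small subfamily -/
theorem chain_member {u : (Y → B) → B} {r₀ : B} (hch : UChain u r₀) {A : Type} {a : A → B}
    {F : A → Y → B} (hF : Fam u A a F) {r : B} (hr : r ≤ r₀) (hcov : FCov a F r) (s : Set A)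
    (hno : ∀ r' ≤ r, r' ≠ ⊥ → ¬ FCov (fun i : s => a i.1) (fun i : s => F i.1) r')
    {d : B} (hd : d ≤ r) (hd' : d ≠ ⊥) :
    ∃ (z : B) (j : A), z ≠ ⊥ ∧ z ≤ d ∧ z ≤ a j ∧ ∀ i ∈ s, ∀ y, z ⊓ (a i ⊓ F i y) ≤ F j y := by
  have h1 := hno d hd hd'
  unfold FCov at h1
  push Not at h1
  obtain ⟨y₀, hy₀⟩ := h1
  set S : B := ⨆ i : s, a i.1 ⊓ F i.1 y₀ with hS
  have hx : d ⊓ Sᶜ ≠ ⊥ := by
    intro hbot
    exact hy₀ (by rwa [← sdiff_eq, sdiff_eq_bot_iff] at hbot)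
  -- find j
  have hxle : d ⊓ Sᶜ ≤ ⨆ i, a i ⊓ F i y₀ := inf_le_left.trans (hd.trans (hcov y₀))
  obtain ⟨j, hj⟩ : ∃ j, (d ⊓ Sᶜ) ⊓ (a j ⊓ F j y₀) ≠ ⊥ := by
    by_contra hcon
    push Not at hcon
    apply hx
    rw [← inf_eq_left.2 hxle, inf_iSup_eq]
    simpa using hcon
  refine ⟨(d ⊓ Sᶜ) ⊓ (a j ⊓ F j y₀), j, hj, inf_le_left.trans inf_le_left,
    inf_le_right.trans inf_le_left, ?_⟩
  intro i hi y
  set z : B := (d ⊓ Sᶜ) ⊓ (a j ⊓ F j y₀) with hz
  have hzd : z ≤ r₀ := inf_le_left.trans (inf_le_left.trans (hd.trans hr))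
  have hzj : z ≤ a j := inf_le_right.trans inf_le_left
  have hzF : z ≤ F j y₀ := inf_le_right.trans inf_le_right
  have hzS : z ≤ Sᶜ := inf_le_left.trans inf_le_right
  have hchz : z ⊓ a i ≤ (⨅ y, F i y ⇨ F j y) ⊔ ⨅ y, F j y ⇨ F i y := by
    refine le_trans ?_ (hch (F i) (F j) (hF.op i) (hF.op j))
    exact le_inf (inf_le_left.trans hzd)
      (le_inf (inf_le_right.trans (hF.le i)) (inf_le_left.trans (hzj.trans (hF.le j))))
  have hiS : a i ⊓ F i y₀ ≤ S := le_iSup (fun i : s => a i.1 ⊓ F i.1 y₀) ⟨i, hi⟩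
  have hsec : (z ⊓ a i) ⊓ (⨅ y, F j y ⇨ F i y) = ⊥ := by
    rw [← le_bot_iff]
    have h2 : (z ⊓ a i) ⊓ (⨅ y, F j y ⇨ F i y) ≤ F i y₀ := by
      have h3 : (⨅ y, F j y ⇨ F i y) ≤ F j y₀ ⇨ F i y₀ := iInf_le _ y₀
      calc (z ⊓ a i) ⊓ (⨅ y, F j y ⇨ F i y) ≤ F j y₀ ⊓ (F j y₀ ⇨ F i y₀) :=
            inf_le_inf (inf_le_left.trans hzF) h3
        _ ≤ F i y₀ := by rw [inf_himp]; exact inf_le_right
    calc (z ⊓ a i) ⊓ (⨅ y, F j y ⇨ F i y) ≤ Sᶜ ⊓ S := by
          refine le_inf (inf_le_left.trans (inf_le_left.trans hzS)) ?_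
          exact (le_inf (inf_le_left.trans inf_le_right) h2).trans hiS
      _ = ⊥ := compl_inf_eq_bot
  have hfin : z ⊓ a i ≤ ⨅ y, F i y ⇨ F j y := by
    have h4 : z ⊓ a i = (z ⊓ a i) ⊓ ((⨅ y, F i y ⇨ F j y) ⊔ ⨅ y, F j y ⇨ F i y) :=
      (inf_eq_left.2 hchz).symm
    rw [inf_sup_left, hsec, sup_bot_eq] at h4
    rw [h4]
    exact inf_le_right
  have h5 : z ⊓ a i ≤ F i y ⇨ F j y := hfin.trans (iInf_le _ y)
  rw [le_himp_iff] at h5
  rw [← inf_assoc]
  exact h5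

end Pool.Agent.Lib.MP_473540_gtM
end

section

/-!
# Countable sets of the model contain few sets of the ground model
-/

set_option autoImplicit false

namespace Pool.Agent.Lib.MP_473540_gtM

open Pool.Agent.Lib.SymZF Pool.Agent.Lib.SymZF.SymSys Pool.Agent.Lib.RM48 Pool.Agent.Lib.KZF
open Cardinal

variable {B : Type} [CompleteBooleanAlgebra B] {Y : Type} [TopologicalSpace Y] {Λ : Type}
  {pt : Y → (tS B).HSet}

/-- equality of the names of two open sets of the ground model -/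
theorem chi_eq (hpt : Inj pt) {O O' : Set Y} {d : B} (hd : d ≠ ⊥)
    (h : d ≤ (sb pt (chi B O)).eq (sb pt (chi B O'))) : O = O' := by
  have key : ∀ {O O' : Set Y}, d ≤ (sb pt (chi B O)).eq (sb pt (chi B O')) → O ⊆ O' := by
    intro O O' h y hy
    by_contra hy'
    apply hd
    rw [← le_bot_iff]
    have h1 := eq_sb_le hpt (chi B O) (chi B O') y
    rw [chi_mem hy, chi_not_mem hy', inf_top_eq] at h1
    exact h.trans h1
  refine Set.Subset.antisymm (key h) (key ?_)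
  rw [HSet.eq_symm]
  exact h

private theorem relv_congr (f n n' a : (tS B).HSet) :
    n.eq n' ⊓ relv f n a ≤ relv f n' a := by
  rw [relv, relv]
  refine le_trans (inf_le_inf_right _ ?_) (HSet.mem_congr_left (n.opair a) (n'.opair a) f)
  refine le_trans ?_ (HSet.opair_congr n n' a a)
  rw [HSet.eq_refl, inf_top_eq]

private theorem buniq_congr (f n n' a : (tS B).HSet) :
    n.eq n' ⊓ buniq f n a ≤ buniq f n' a := by
  rw [buniq, buniq]
  refine le_inf ?_ (le_iInf fun b => ?_)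
  · exact (inf_le_inf_left _ inf_le_left).trans (relv_congr f n n' a)
  · rw [le_himp_iff]
    have h1 : n.eq n' ⊓ relv f n' b ≤ relv f n b := by
      rw [HSet.eq_symm]
      exact relv_congr f n' n b
    have h2 : (⨅ b : (tS B).HSet, relv f n b ⇨ b.eq a) ⊓ relv f n b ≤ b.eq a :=
      (inf_le_inf_right _ (iInf_le _ b)).trans himp_inf_le
    refine le_trans (le_inf ?_ ?_) h2
    · exact inf_le_left.trans (inf_le_right.trans inf_le_right)
    · refine le_trans ?_ h1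
      exact inf_le_inf_right _ inf_le_left

private theorem buniq_inj (hpt : Inj pt) {O O' : Set Y} {f n : (tS B).HSet} {d : B} (hd : d ≠ ⊥)
    (h : d ≤ buniq f n (sb pt (chi B O))) (h' : d ≤ buniq f n (sb pt (chi B O'))) : O = O' := by
  refine chi_eq hpt hd ?_
  have h1 : d ≤ relv f n (sb pt (chi B O)) := h.trans inf_le_left
  have h2 : d ≤ relv f n (sb pt (chi B O)) ⇨ (sb pt (chi B O)).eq (sb pt (chi B O')) :=
    h'.trans (inf_le_right.trans (iInf_le _ _))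
  exact (le_inf h2 h1).trans himp_inf_le

/-- **A countable set of the model contains only `#Λ` many sets of the ground model.** -/
theorem few_members (c : Coll Λ B) (hΛ : ℵ₀ ≤ #Λ) (hpt : Inj pt) (𝒪 : Set (Set Y))
    (hne : 𝒪.Nonempty) (V f : (tS B).HSet) {r : B}
    (hr : r ≤ benum V (HSet.om (tS B)) f) :
    ∃ s : Λ → Set Y, (∀ k, s k ∈ 𝒪) ∧
      ∀ O ∈ 𝒪, r ⊓ (sb pt (chi B O)).mem V ≠ ⊥ → ∃ k, s k = O := by
  classical
  have hcard : #(ℕ × c.D) ≤ #Λ := by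
    rw [Cardinal.mk_prod, Cardinal.lift_id, Cardinal.lift_id, Cardinal.mk_nat]
    calc ℵ₀ * #c.D ≤ #Λ * #Λ := mul_le_mul' hΛ c.cardD
      _ = #Λ := Cardinal.mul_eq_self hΛ
  obtain ⟨g⟩ := Cardinal.le_def _ _ |>.1 hcard
  have hch : ∀ p : ℕ × c.D, ∃ O ∈ 𝒪,
      (∃ O' ∈ 𝒪, (p.2 : B) ≤ buniq f (HSet.num (tS B) p.1) (sb pt (chi B O'))) →
        (p.2 : B) ≤ buniq f (HSet.num (tS B) p.1) (sb pt (chi B O)) := by
    intro p
    by_cases h : ∃ O' ∈ 𝒪, (p.2 : B) ≤ buniq f (HSet.num (tS B) p.1) (sb pt (chi B O'))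
    · obtain ⟨O, hO, h1⟩ := h
      exact ⟨O, hO, fun _ => h1⟩
    · exact ⟨hne.some, hne.some_mem, fun h' => absurd h' h⟩
  choose Oc hOc hOc' using hch
  refine ⟨fun k => if h : ∃ p, g p = k then Oc h.choose else hne.some, fun k => ?_, ?_⟩
  · dsimp only
    split_ifs with h
    · exact hOc _
    · exact hne.some_mem
  · intro O hO hne'
    have h1 : r ⊓ (sb pt (chi B O)).mem V ≤
        ⨆ k : ℕ, buniq f (HSet.num (tS B) k) (sb pt (chi B O)) := by
      have h2 : r ≤ (sb pt (chi B O)).mem V ⇨ ⨆ n : (tS B).HSet,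
          n.mem (HSet.om (tS B)) ⊓ buniq f n (sb pt (chi B O)) := hr.trans (iInf_le _ _)
      refine (inf_le_inf_right _ h2).trans (himp_inf_le.trans ?_)
      refine iSup_le fun n => ?_
      rw [HSet.mem_om, iSup_inf_eq]
      exact iSup_mono fun k => buniq_congr _ _ _ _
    have h3 : ∃ k : ℕ, buniq f (HSet.num (tS B) k) (sb pt (chi B O)) ≠ ⊥ := by
      by_contra hcon
      push Not at hcon
      apply hne'
      rw [← le_bot_iff]
      refine h1.trans (iSup_le fun k => ?_)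
      rw [hcon k]
    obtain ⟨k, hk⟩ := h3
    obtain ⟨d, hd, hdk⟩ := c.dense _ hk
    refine ⟨g (k, ⟨d, hd⟩), ?_⟩
    have hex : ∃ p, g p = g (k, ⟨d, hd⟩) := ⟨_, rfl⟩
    dsimp only
    rw [dif_pos hex]
    have hp : hex.choose = (k, ⟨d, hd⟩) := g.injective hex.choose_spec
    rw [hp]
    exact buniq_inj hpt (c.ne d hd) (hOc' (k, ⟨d, hd⟩) ⟨O, hO, hdk⟩) hdk

end Pool.Agent.Lib.MP_473540_gtM
end

section

/-!
# Normality: the family of clopen sets
-/

set_option autoImplicit false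

namespace Pool.Agent.Lib.MP_473540_gtM

open Pool.Agent.Lib.SymZF Pool.Agent.Lib.SymZF.SymSys Pool.Agent.Lib.RM48 Pool.Agent.Lib.KZF

open Cardinal

variable {B : Type} [CompleteBooleanAlgebra B] {Y : Type} [TopologicalSpace Y] {Λ : Type}

/-- **The family of clopen sets.** -/
theorem nor_fam (c : Coll Λ B) (hY : MuSpace Λ Y) {f g : Y → B} (hf : Op f) (hg : Op g) :
    ∃ (C : Λ → Set Y) (a b : Λ → B), (∀ i, IsClopen (C i)) ∧ (∀ i, ∀ y ∈ C i, a i ≤ f y) ∧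
      (∀ i, ∀ y ∈ C i, b i ≤ g y) ∧
      ∀ y, (⨅ z, f z ⊔ g z) ≤ ⨆ i : {i : Λ // y ∈ C i}, a i.1 ⊔ b i.1 := by
  -- Let `q = ⨅ z, f z ⊔ g z` and `D' = {d ∈ D | d ≤ q}`. For `d₀ ∈ D'` `nor_fam_one` gives `C d₀ i` and
  -- `d d₀ i ∈ D`. The family is indexed by `D' × Λ` (`#(D' × Λ) ≤ #Λ`, `mul_eq_self hY.inf`): an
  -- injection `φ : D' × Λ → Λ`; for `l = φ (d₀, i)` let `C l = C d₀ i`, `a l = d d₀ i` if the first
  -- alternative holds, otherwise `⊥`, `b l = d d₀ i` if the second one holds, otherwise `⊥`; for `l`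
  -- not in the range `C l = Set.univ`, `a l = b l = ⊥` (or use `Function.invFun`). The inequality:
  -- otherwise some `d₀ ∈ D` is below `q ⊓ (⨆ ..)ᶜ`; take `i` with `y ∈ C d₀ i`: `d d₀ i ≤ d₀` is
  -- below the supremum, so `⊥`, contradiction to `c.ne`.
  classical
  have h1 : ∀ d : {d : B // d ∈ c.D ∧ d ≤ ⨅ z, f z ⊔ g z}, ∃ C : Λ → Set Y,
      (∀ i, IsClopen (C i)) ∧ (∀ y, ∃ i, y ∈ C i) ∧
      ∀ i, ∃ e ∈ c.D, e ≤ d.1 ∧ ((∀ y ∈ C i, e ≤ f y) ∨ ∀ y ∈ C i, e ≤ g y) := fun d =>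
    nor_fam_one c hY hf hg d.1 d.2.1 (fun y => d.2.2.trans (iInf_le (fun z => f z ⊔ g z) y))
  choose C hC1 hC2 hC3 using h1
  choose e he1 he2 he3 using hC3
  have hcard : #({d : B // d ∈ c.D ∧ d ≤ ⨅ z, f z ⊔ g z} × Λ) ≤ #Λ := by
    rw [Cardinal.mk_prod, Cardinal.lift_id, Cardinal.lift_id]
    calc #{d : B // d ∈ c.D ∧ d ≤ ⨅ z, f z ⊔ g z} * #Λ ≤ #Λ * #Λ := by
          refine mul_le_mul_left ?_ _
          exact (Cardinal.mk_le_mk_of_subset (fun d hd => hd.1)).trans c.cardD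
      _ = #Λ := Cardinal.mul_eq_self hY.inf
  obtain ⟨φ⟩ := Cardinal.le_def _ _ |>.1 hcard
  refine ⟨Function.extend φ (fun p => C p.1 p.2) (fun _ => Set.univ),
    Function.extend φ (fun p => if ∀ y ∈ C p.1 p.2, e p.1 p.2 ≤ f y then e p.1 p.2 else ⊥)
      (fun _ => ⊥),
    Function.extend φ (fun p => if ∀ y ∈ C p.1 p.2, e p.1 p.2 ≤ g y then e p.1 p.2 else ⊥)
      (fun _ => ⊥), ?_, ?_, ?_, ?_⟩
  · intro l
    by_cases hl : ∃ p, φ p = l
    · obtain ⟨p, rfl⟩ := hl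
      rw [φ.injective.extend_apply]
      exact hC1 _ _
    · rw [Function.extend_apply' _ _ _ hl]
      exact isClopen_univ
  · intro l y hy
    by_cases hl : ∃ p, φ p = l
    · obtain ⟨p, rfl⟩ := hl
      rw [φ.injective.extend_apply] at hy ⊢
      split_ifs with h
      · exact h y hy
      · exact bot_le
    · rw [Function.extend_apply' _ _ _ hl]
      exact bot_le
  · intro l y hy
    by_cases hl : ∃ p, φ p = l
    · obtain ⟨p, rfl⟩ := hl
      rw [φ.injective.extend_apply] at hy ⊢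
      split_ifs with h
      · exact h y hy
      · exact bot_le
    · rw [Function.extend_apply' _ _ _ hl]
      exact bot_le
  · intro y
    set S : B := ⨆ i : {i : Λ // y ∈ Function.extend φ (fun p => C p.1 p.2)
        (fun _ => Set.univ) i},
      Function.extend φ (fun p => if ∀ y ∈ C p.1 p.2, e p.1 p.2 ≤ f y then e p.1 p.2 else ⊥)
        (fun _ => ⊥) i.1 ⊔
      Function.extend φ (fun p => if ∀ y ∈ C p.1 p.2, e p.1 p.2 ≤ g y then e p.1 p.2 else ⊥)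
        (fun _ => ⊥) i.1 with hS
    by_contra hcon
    have h2 : (⨅ z, f z ⊔ g z) ⊓ Sᶜ ≠ ⊥ := by
      intro h0
      apply hcon
      have h3 := (disjoint_iff.2 h0).le_compl_right
      rwa [compl_compl] at h3
    obtain ⟨d₀, hd₀, hd₀b⟩ := c.dense _ h2
    obtain ⟨i, hi⟩ := hC2 ⟨d₀, hd₀, hd₀b.trans inf_le_left⟩ y
    set p : {d : B // d ∈ c.D ∧ d ≤ ⨅ z, f z ⊔ g z} × Λ := (⟨d₀, hd₀, hd₀b.trans inf_le_left⟩, i)
      with hp
    have hyp : y ∈ Function.extend φ (fun p => C p.1 p.2) (fun _ => Set.univ) (φ p) := by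
      rw [φ.injective.extend_apply]
      exact hi
    have hle : e p.1 p.2 ≤ S := by
      refine le_trans ?_ (le_iSup (fun i : {i : Λ // y ∈ Function.extend φ (fun p => C p.1 p.2)
        (fun _ => Set.univ) i} =>
        Function.extend φ (fun p => if ∀ y ∈ C p.1 p.2, e p.1 p.2 ≤ f y then e p.1 p.2 else ⊥)
          (fun _ => ⊥) i.1 ⊔
        Function.extend φ (fun p => if ∀ y ∈ C p.1 p.2, e p.1 p.2 ≤ g y then e p.1 p.2 else ⊥)
          (fun _ => ⊥) i.1) ⟨φ p, hyp⟩)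
      simp only
      rw [φ.injective.extend_apply, φ.injective.extend_apply]
      rcases he3 p.1 p.2 with h | h
      · rw [if_pos h]
        exact le_sup_left
      · rw [if_pos h]
        exact le_sup_right
    have hle2 : e p.1 p.2 ≤ Sᶜ := (he2 p.1 p.2).trans (hd₀b.trans inf_le_right)
    apply c.ne _ (he1 p.1 p.2)
    have h5 := le_inf hle hle2
    rwa [inf_compl_self, le_bot_iff] at h5

end Pool.Agent.Lib.MP_473540_gtM
end

section

/-!
# A name for a countable subcover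
-/

set_option autoImplicit false

namespace Pool.Agent.Lib.MP_473540_gtM

open Pool.Agent.Lib.SymZF Pool.Agent.Lib.SymZF.SymSys Pool.Agent.Lib.RM48 Pool.Agent.Lib.KZF
open Cardinal

variable {B : Type} [CompleteBooleanAlgebra B] {Y : Type} [TopologicalSpace Y] {Λ : Type}
  {pt : Y → (tS B).HSet}

/-- **A name for a countable subcover.** -/
theorem bcsc_of_fam (c : Coll Λ B) (hpt : Inj pt) (𝒰 : (tS B).HSet) {a : Λ → B} {F : Λ → Y → B}
    (hF : Fam (fun f => (sb pt f).mem 𝒰) Λ a F) {r : B} (hcov : FCov a F r) :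
    r ≤ bcsc (XX pt) 𝒰 := by
  unfold bcsc
  refine le_iSup_of_le (fm (fun i => sb pt (F i)) a) ?_
  refine le_inf ?_ (le_inf ?_ ?_)
  · have h : bsub (fm (fun i => sb pt (F i)) a) 𝒰 = ⊤ := by
      rw [bsub, iInf_fm _ _ _ (fun x y => HSet.mem_congr_left _ _ _), iInf_eq_top]
      intro i
      rw [himp_eq_top_iff]
      exact hF.le i
    rw [h]
    exact le_top
  · rw [bctb_fm c]
    exact le_top
  · rw [bcov, iInf_XX]
    · refine le_iInf fun y => (hcov y).trans ?_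
      refine iSup_le fun i => le_iSup_of_le (sb pt (F i)) ?_
      rw [mem_sb hpt]
      refine inf_le_inf_right _ ?_
      rw [mem_fm]
      exact le_iSup_of_le (f := fun j => a j ⊓ (sb pt (F i)).eq (sb pt (F j))) i (by simp)
    · intro x y
      rw [inf_iSup_eq]
      refine iSup_le fun u => le_iSup_of_le u ?_
      refine le_inf (inf_le_right.trans inf_le_left) ?_
      refine le_trans ?_ (HSet.mem_congr_left x y u)
      exact le_inf inf_le_left (inf_le_right.trans inf_le_right)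

end Pool.Agent.Lib.MP_473540_gtM
end

section

/-!
# Families of singular cardinality can be replaced by smaller ones
-/

set_option autoImplicit false

namespace Pool.Agent.Lib.MP_473540_gtM

open Pool.Agent.Lib.SymZF Pool.Agent.Lib.SymZF.SymSys Pool.Agent.Lib.RM48 Pool.Agent.Lib.KZF
open Cardinal

variable {B : Type} [CompleteBooleanAlgebra B] {Y : Type} [TopologicalSpace Y] {Λ : Type}

private theorem LinS_Iic_lt {c : Cardinal.{0}} (hc : ℵ₀ ≤ c) (i : c.ord.ToType) :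
    #(Set.Iic i) < c := by
  have h : Set.Iic i ⊆ insert i (Set.Iio i) := by
    intro x hx
    rcases eq_or_lt_of_le (show x ≤ i from hx) with h | h
    · exact Or.inl h
    · exact Or.inr h
  refine (mk_le_mk_of_subset h).trans_lt ((mk_insert_le).trans_lt ?_)
  exact add_lt_of_lt hc (mk_Iio_toType_ord_lt i) (one_lt_aleph0.trans_le hc)

/-- **Singular cardinals**: there is a family of smaller cardinality which covers the space. -/
theorem lin_sing (c : Coll Λ B) {u : (Y → B) → B} {r₀ : B} (hch : UChain u r₀) {A : Type}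
    {a : A → B} {F : A → Y → B} (hF : Fam u A a F) (hA : ¬ (#A).IsRegular) (hA' : #Λ < #A)
    (hΛ : ℵ₀ ≤ #Λ) {r : B} (hr : r ≤ r₀) (hcov : FCov a F r)
    (hno : ∀ s : Set A, #s < #A → ∀ r' ≤ r, r' ≠ ⊥ →
      ¬ FCov (fun i : s => a i.1) (fun i : s => F i.1) r') :
    ∃ (A' : Type) (a' : A' → B) (F' : A' → Y → B), Fam u A' a' F' ∧ FCov a' F' r ∧ #A' < #A := by
  classical
  have hinf : ℵ₀ ≤ #A := hΛ.trans hA'.le
  have hcof : (#A).ord.cof < #A := by
    by_contra h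
    exact hA ⟨hinf, not_lt.1 h⟩
  obtain ⟨e⟩ : Nonempty (A ≃ (#A).ord.ToType) := by
    rw [← Cardinal.eq, mk_ord_toType]
  obtain ⟨K, hK, hKc⟩ := Order.exists_cof_eq (#A).ord.ToType
  rw [Ordinal.cof_toType] at hKc
  have hs : ∀ ξ : (#A).ord.ToType, #{i : A | e i ≤ ξ} < #A := by
    intro ξ
    refine lt_of_le_of_lt ?_ (LinS_Iic_lt hinf ξ)
    exact mk_preimage_of_injective e (Set.Iic ξ) e.injective
  have hcm : ∀ p : K × {d : c.D // d.1 ≤ r}, ∃ (z : B) (j : A), z ≠ ⊥ ∧ z ≤ p.2.1.1 ∧ z ≤ a j ∧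
      ∀ i ∈ {i : A | e i ≤ p.1.1}, ∀ y, z ⊓ (a i ⊓ F i y) ≤ F j y := by
    intro p
    exact chain_member hch hF hr hcov _ (hno _ (hs p.1.1)) p.2.2 (c.ne _ p.2.1.2)
  choose z j hz0 hzd hza hzF using hcm
  refine ⟨K × {d : c.D // d.1 ≤ r}, z, fun p => F (j p), ⟨fun p => hF.op _, fun p => ?_⟩, ?_, ?_⟩
  · exact (hza p).trans (hF.le _)
  · intro y
    by_contra hne
    set t : B := ⨆ p, z p ⊓ F (j p) y with ht
    have hx : r ⊓ tᶜ ≠ ⊥ := by
      intro h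
      exact hne ((disjoint_compl_right_iff).1 (disjoint_iff.2 h))
    have h1 : (r ⊓ tᶜ) ⊓ (⨆ i, a i ⊓ F i y) ≠ ⊥ := by
      rwa [inf_eq_left.2 (inf_le_left.trans (hcov y))]
    rw [inf_iSup_eq] at h1
    obtain ⟨i, hi⟩ : ∃ i, (r ⊓ tᶜ) ⊓ (a i ⊓ F i y) ≠ ⊥ := by
      by_contra hcon
      push Not at hcon
      exact h1 (iSup_eq_bot.2 hcon)
    obtain ⟨d, hdD, hd⟩ := c.dense _ hi
    obtain ⟨ξ, hξ, hiξ⟩ := hK (e i)
    have hdr : d ≤ r := hd.trans (inf_le_left.trans inf_le_left)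
    set p : K × {d : c.D // d.1 ≤ r} := (⟨ξ, hξ⟩, ⟨⟨d, hdD⟩, hdr⟩) with hp
    have hzd' : z p ≤ d := hzd p
    have h2 : z p ≤ F (j p) y := by
      refine le_trans ?_ (hzF p i hiξ y)
      exact le_inf le_rfl (hzd'.trans (hd.trans inf_le_right))
    have h3 : z p ≤ t := le_trans (le_inf le_rfl h2) (le_iSup (fun p => z p ⊓ F (j p) y) p)
    have h4 : z p ≤ tᶜ := hzd'.trans (hd.trans (inf_le_left.trans inf_le_right))
    exact hz0 p (le_bot_iff.1 ((le_inf h3 h4).trans (inf_compl_self t).le))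
  · rw [mk_prod, lift_id, lift_id]
    refine mul_lt_of_lt hinf (hKc ▸ hcof) ?_
    exact lt_of_le_of_lt ((mk_subtype_le _).trans c.cardD) hA'

end Pool.Agent.Lib.MP_473540_gtM
end

section

/-!
# The space is not Lindelöf
-/

set_option autoImplicit false

namespace Pool.Agent.Lib.MP_473540_gtM

open Pool.Agent.Lib.SymZF Pool.Agent.Lib.SymZF.SymSys Pool.Agent.Lib.RM48 Pool.Agent.Lib.KZF
open Cardinal

variable {B : Type} [CompleteBooleanAlgebra B] {Y : Type} [TopologicalSpace Y] {Λ : Type}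
  {pt : Y → (tS B).HSet}

private theorem cov_congr (V x y : (tS B).HSet) :
    x.eq y ⊓ (⨆ u : (tS B).HSet, u.mem V ⊓ x.mem u) ≤ ⨆ u : (tS B).HSet, u.mem V ⊓ y.mem u := by
  rw [inf_iSup_eq]
  refine iSup_le fun u => le_iSup_of_le u (le_inf ?_ ?_)
  · exact inf_le_right.trans inf_le_left
  · exact (inf_le_inf_left _ inf_le_right).trans (HSet.mem_congr_left _ _ _)

omit [TopologicalSpace Y] in
private theorem bcov_XX (V : (tS B).HSet) :
    bcov (XX pt) V = ⨅ y, ⨆ u : (tS B).HSet, u.mem V ⊓ (pt y).mem u := by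
  rw [bcov]
  exact iInf_XX (fun x => ⨆ u : (tS B).HSet, u.mem V ⊓ x.mem u) (fun x y => cov_congr V x y)

private theorem benum_congr (V w w' f : (tS B).HSet) :
    w.eq w' ⊓ benum V w f ≤ benum V w' f := by
  rw [benum, benum]
  refine le_iInf fun a => ?_
  rw [le_himp_iff]
  have h1 : (⨅ a : (tS B).HSet, a.mem V ⇨ ⨆ n : (tS B).HSet, n.mem w ⊓ buniq f n a) ⊓ a.mem V ≤
      ⨆ n : (tS B).HSet, n.mem w ⊓ buniq f n a :=
    (inf_le_inf_right _ (iInf_le _ a)).trans himp_inf_le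
  rw [inf_assoc]
  refine (inf_le_inf_left _ h1).trans ?_
  rw [inf_iSup_eq]
  refine iSup_le fun n => le_iSup_of_le n (le_inf ?_ ?_)
  · exact (inf_le_inf_left _ inf_le_left).trans (HSet.mem_congr_right _ _ _)
  · exact inf_le_right.trans inf_le_right

/-- **The space is not Lindelöf.** -/
theorem not_lindelof (c : Coll Λ B) (hY : MuSpace Λ Y) (hpt : Inj pt) :
    ∃ 𝒰 : (tS B).HSet, bsub 𝒰 (TT pt) = ⊤ ∧ bcov (XX pt) 𝒰 = ⊤ ∧ bcsc (XX pt) 𝒰 = ⊥ := by
  obtain ⟨𝒪, hop, hcov, hnc⟩ := hY.not_cover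
  refine ⟨fm (fun O : 𝒪 => sb pt (chi B O.1)) (fun _ => ⊤), ?_, ?_, ?_⟩
  · rw [bsub, iInf_fm _ _ _ (fun x y => HSet.mem_congr_left _ _ _), iInf_eq_top]
    intro O
    rw [sb_mem_TT (op_chi (hop O.1 O.2)), himp_top]
  · rw [bcov_XX, iInf_eq_top]
    intro y
    obtain ⟨O, hO, hy⟩ := hcov y
    refine top_le_iff.mp (le_iSup_of_le (sb pt (chi B O)) (le_inf ?_ ?_))
    · exact (mem_fm_top (fun O : 𝒪 => sb pt (chi B O.1)) ⟨O, hO⟩).ge
    · rw [mem_sb hpt, chi_mem hy]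
  · rw [bcsc]
    refine iSup_eq_bot.mpr fun V => ?_
    rw [bctb, iSup_inf_eq, inf_iSup_eq]
    refine iSup_eq_bot.mpr fun w => ?_
    rw [iSup_inf_eq, inf_iSup_eq]
    refine iSup_eq_bot.mpr fun f => ?_
    by_contra hr
    set r := bsub V (fm (fun O : 𝒪 => sb pt (chi B O.1)) (fun _ => ⊤)) ⊓
      (w.eq (HSet.om (tS B)) ⊓ benum V w f ⊓ bcov (XX pt) V) with hrdef
    have hr1 : r ≤ bsub V (fm (fun O : 𝒪 => sb pt (chi B O.1)) (fun _ => ⊤)) := inf_le_left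
    have hr2 : r ≤ benum V (HSet.om (tS B)) f :=
      (inf_le_right.trans inf_le_left).trans (benum_congr V w _ f)
    have hr3 : r ≤ bcov (XX pt) V := inf_le_right.trans inf_le_right
    have hne' : 𝒪.Nonempty := by
      obtain ⟨y⟩ := hY.ne
      obtain ⟨O, hO, -⟩ := hcov y
      exact ⟨O, hO⟩
    obtain ⟨s, hs, hs'⟩ := few_members c hY.inf hpt 𝒪 hne' V f hr2
    obtain ⟨y, hy⟩ := hnc s hs
    have h4 : r ≤ ⨆ u : (tS B).HSet, u.mem V ⊓ (pt y).mem u := by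
      rw [bcov_XX] at hr3
      exact hr3.trans (iInf_le _ y)
    have h5 : r ≤ ⨆ O : 𝒪, r ⊓ ((sb pt (chi B O.1)).mem V ⊓ chi B O.1 y) := by
      refine (le_inf le_rfl h4).trans ?_
      rw [inf_iSup_eq]
      refine iSup_le fun v => ?_
      have h6 : r ⊓ v.mem V ≤ ⨆ O : 𝒪, v.eq (sb pt (chi B O.1)) := by
        have h7 : r ⊓ v.mem V ≤ v.mem (fm (fun O : 𝒪 => sb pt (chi B O.1)) (fun _ => ⊤)) := by
          refine (inf_le_inf_right _ (hr1.trans (iInf_le _ v))).trans himp_inf_le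
        rw [mem_fm] at h7
        simpa using h7
      have h8 : r ⊓ (v.mem V ⊓ (pt y).mem v) ≤
          (⨆ O : 𝒪, v.eq (sb pt (chi B O.1))) ⊓ (r ⊓ (v.mem V ⊓ (pt y).mem v)) := by
        refine le_inf ?_ le_rfl
        exact (inf_le_inf_left _ inf_le_left).trans h6
      refine h8.trans ?_
      rw [iSup_inf_eq]
      refine iSup_mono fun O => le_inf (inf_le_right.trans inf_le_left) (le_inf ?_ ?_)
      · refine le_trans (le_inf inf_le_left ?_) (HSet.mem_congr_left _ _ _)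
        exact inf_le_right.trans (inf_le_right.trans inf_le_left)
      · rw [← mem_sb hpt (chi B O.1) y]
        refine le_trans (le_inf inf_le_left ?_) (HSet.mem_congr_right _ _ _)
        exact inf_le_right.trans (inf_le_right.trans inf_le_right)
    have h9 : (⨆ O : 𝒪, r ⊓ ((sb pt (chi B O.1)).mem V ⊓ chi B O.1 y)) ≠ ⊥ := by
      intro h
      rw [h] at h5
      exact hr (le_bot_iff.mp h5)
    rw [ne_eq, iSup_eq_bot, not_forall] at h9
    obtain ⟨O, hO⟩ := h9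
    have hyO : y ∈ O.1 := by
      by_contra h
      apply hO
      rw [chi_not_mem h, inf_bot_eq, inf_bot_eq]
    obtain ⟨k, hk⟩ := hs' O.1 O.2 (by
      intro h
      apply hO
      rw [← inf_assoc, h, bot_inf_eq])
    exact hy k (hk ▸ hyO)

end Pool.Agent.Lib.MP_473540_gtM
end

section

/-!
# Families indexed by `Λ`
-/

set_option autoImplicit false

namespace Pool.Agent.Lib.MP_473540_gtM

open Pool.Agent.Lib.SymZF Pool.Agent.Lib.SymZF.SymSys Pool.Agent.Lib.RM48 Pool.Agent.Lib.KZF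
open Cardinal

variable {B : Type} [CompleteBooleanAlgebra B] {Y : Type} [TopologicalSpace Y] {Λ : Type}

/-- **A chain which covers the space contains, below some nonzero element, a covering family which
is indexed by `Λ`.** -/
theorem lin_core (c : Coll Λ B) (hY : MuSpace Λ Y) {u : (Y → B) → B} {r₀ : B} (hr₀ : r₀ ≠ ⊥)
    (hch : UChain u r₀) (hcov : ∀ y, r₀ ≤ ⨆ F : {f : Y → B // Op f}, u F.1 ⊓ F.1 y) :
    ∃ r ≤ r₀, r ≠ ⊥ ∧ ∃ (a : Λ → B) (F : Λ → Y → B), Fam u Λ a F ∧ FCov a F r := by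
  classical
  set S : Set Cardinal.{0} := {θ | ∃ r ≤ r₀, r ≠ ⊥ ∧ ∃ (A : Type) (a : A → B) (F : A → Y → B),
    #A = θ ∧ Fam u A a F ∧ FCov a F r} with hS
  have hne : S.Nonempty := by
    refine ⟨#{f : Y → B // Op f}, r₀, le_rfl, hr₀, {f : Y → B // Op f}, fun f => u f.1,
      fun f => f.1, rfl, ⟨fun f => f.2, fun f => le_rfl⟩, hcov⟩
  obtain ⟨θ, hθ, hmin⟩ := (Cardinal.lt_wf).has_min S hne
  obtain ⟨r, hr, hr0, A, a, F, rfl, hF, hc⟩ := hθ
  rcases le_or_gt #A #Λ with hle | hlt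
  · obtain ⟨φ⟩ := (Cardinal.le_def A Λ).1 hle
    refine ⟨r, hr, hr0, fun l => if h : ∃ i, φ i = l then a h.choose else ⊥,
      fun l => if h : ∃ i, φ i = l then F h.choose else fun _ => ⊥, ⟨fun l => ?_, fun l => ?_⟩, ?_⟩
    · by_cases h : ∃ i, φ i = l
      · rw [dif_pos h]
        exact hF.op _
      · rw [dif_neg h]
        exact op_bot
    · by_cases h : ∃ i, φ i = l
      · rw [dif_pos h, dif_pos h]
        exact hF.le _
      · rw [dif_neg h]
        exact bot_le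
    · intro y
      refine (hc y).trans (iSup_le fun i => ?_)
      have h : ∃ i', φ i' = φ i := ⟨i, rfl⟩
      have hi : h.choose = i := φ.injective h.choose_spec
      refine le_iSup_of_le (φ i) ?_
      beta_reduce
      rw [dif_pos h, dif_pos h, hi]
  · by_cases hreg : (#A).IsRegular
    · obtain ⟨s, hs, r', hr', hr'0, hc'⟩ := lin_reg c hY hF hreg hlt hr0 hc
      exact absurd hs (hmin _ ⟨r', hr'.trans hr, hr'0, s, _, _, rfl,
        ⟨fun i => hF.op _, fun i => hF.le _⟩, hc'⟩)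
    · obtain ⟨A', a', F', hF', hc', hA'⟩ := lin_sing c hch hF hreg hlt hY.inf hr hc
        (fun s hs r' hr' hr'0 hc' => hmin _ ⟨r', hr'.trans hr, hr'0, s, _, _, rfl,
          ⟨fun i => hF.op _, fun i => hF.le _⟩, hc'⟩ hs)
      exact absurd hA' (hmin _ ⟨r, hr, hr0, A', a', F', rfl, hF', hc'⟩)

end Pool.Agent.Lib.MP_473540_gtM
end

section

/-!
# The space is normal
-/

set_option autoImplicit false

namespace Pool.Agent.Lib.MP_473540_gtM

open Pool.Agent.Lib.SymZF Pool.Agent.Lib.SymZF.SymSys Pool.Agent.Lib.RM48 Pool.Agent.Lib.KZF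

variable {B : Type} [CompleteBooleanAlgebra B] {Y : Type} [TopologicalSpace Y] {Λ : Type}
  {pt : Y → (tS B).HSet}

/-- an element equal to the name of a point belongs to the name of a subset -/
private theorem mem_sb_of_eq (f : Y → B) (x : (tS B).HSet) (y : Y) :
    f y ⊓ x.eq (pt y) ≤ x.mem (sb pt f) := by
  rw [mem_sb']
  exact le_iSup (fun y' => f y' ⊓ x.eq (pt y')) y

/-- covering by the complement of a set and a name of a subset -/
private theorem cov_aux (U : (tS B).HSet) (f v : Y → B) (r : B) (h1 : r ≤ U.eq (sb pt f))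
    (h2 : ∀ y, r ≤ f y ⊔ v y) :
    r ≤ ⨅ x : (tS B).HSet, x.mem (XX pt) ⇨ x.mem U ⊔ x.mem (sb pt v) := by
  refine le_iInf fun x => ?_
  rw [le_himp_iff, mem_XX, inf_iSup_eq]
  refine iSup_le fun y => ?_
  have h3 : r ⊓ x.eq (pt y) ≤ (f y ⊔ v y) ⊓ (U.eq (sb pt f) ⊓ x.eq (pt y)) :=
    le_inf (inf_le_left.trans (h2 y)) (inf_le_inf_right _ h1)
  refine h3.trans ?_
  rw [inf_sup_right]
  refine sup_le_sup ?_ ?_
  · have h4 : f y ⊓ (U.eq (sb pt f) ⊓ x.eq (pt y)) ≤ (sb pt f).eq U ⊓ x.mem (sb pt f) := by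
      refine le_inf ?_ ?_
      · rw [HSet.eq_symm]
        exact inf_le_right.trans inf_le_left
      · exact (inf_le_inf_left _ inf_le_right).trans (mem_sb_of_eq f x y)
    exact h4.trans (HSet.mem_congr_right _ _ _)
  · exact (inf_le_inf_left _ inf_le_right).trans (mem_sb_of_eq v x y)

/-- disjoint names of subsets -/
private theorem dis_aux (hpt : Inj pt) (v₁ v₂ : Y → B) (h : ∀ y, v₁ y ⊓ v₂ y = ⊥) (x : (tS B).HSet) :
    x.mem (sb pt v₁) ⊓ x.mem (sb pt v₂) = ⊥ := by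
  rw [mem_sb', mem_sb', iSup_inf_eq, eq_bot_iff]
  refine iSup_le fun y => ?_
  rw [inf_iSup_eq]
  refine iSup_le fun y' => ?_
  by_cases hy : y = y'
  · subst hy
    rw [← h y]
    exact inf_le_inf inf_le_left inf_le_left
  · rw [← hpt y y' hy]
    refine le_trans (inf_le_inf inf_le_right inf_le_right) ?_
    rw [HSet.eq_symm x (pt y)]
    exact HSet.eq_trans _ _ _

/-- **Normality.** -/
theorem normal_axiom (c : Coll Λ B) (hY : MuSpace Λ Y) (hpt : Inj pt) (U₁ U₂ : (tS B).HSet) :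
    U₁.mem (TT pt) ⊓ U₂.mem (TT pt) ⊓
      (⨅ x : (tS B).HSet, x.mem (XX pt) ⇨ x.mem U₁ ⊔ x.mem U₂) ≤
      ⨆ V₁ : (tS B).HSet, ⨆ V₂ : (tS B).HSet, V₁.mem (TT pt) ⊓ (V₂.mem (TT pt) ⊓
        ((⨅ x : (tS B).HSet, x.mem (XX pt) ⇨ x.mem U₁ ⊔ x.mem V₁) ⊓
        ((⨅ x : (tS B).HSet, x.mem (XX pt) ⇨ x.mem U₂ ⊔ x.mem V₂) ⊓
        ⨅ x : (tS B).HSet, (x.mem V₁ ⊓ x.mem V₂)ᶜ))) := by
  -- `mem_TT`, distribute: it is enough to show it for `U₁.eq (sb pt F)`, `U₂.eq (sb pt G)` instead of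
  -- `U₁.mem TT`, `U₂.mem TT`, `F`, `G` open. `nor_fam` and `nor_core` with `q = ⨅ z, F z ⊔ G z` give
  -- `v₁`, `v₂`; take `V₁ = sb pt v₁`, `V₂ = sb pt v₂` (`sb_mem_TT`). The left side `r` satisfies
  -- `r ≤ F z ⊔ G z` for all `z` (take `x = pt z`, `(pt z).mem XX = ⊤`, `HSet.mem_congr_right`,
  -- `mem_sb`), so `r ≤ q`. `x.mem XX ⊓ r ≤ x.mem U₁ ⊔ x.mem V₁`: `mem_XX`, for `x.eq (pt y)`:
  -- `r ≤ F y ⊔ v₁ y` and `F y ⊓ x.eq (pt y) ⊓ U₁.eq (sb pt F) ≤ x.mem U₁`. Disjoint: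
  -- `x.mem V₁ ⊓ x.mem V₂ = ⊥`: `mem_sb'`, `x.eq (pt y) ⊓ x.eq (pt y') ≤ (pt y).eq (pt y')`, `v₁ y ⊓ v₂ y = ⊥`.
  rw [mem_TT U₁, mem_TT U₂, iSup_inf_eq, iSup_inf_eq]
  refine iSup_le fun F => ?_
  rw [inf_iSup_eq, iSup_inf_eq]
  refine iSup_le fun G => ?_
  obtain ⟨C, a, b, hC, ha, hb, hq⟩ := nor_fam c hY F.2 G.2
  obtain ⟨v₁, v₂, ho1, ho2, hdis, h1, h2⟩ := nor_core c C hC a b F.1 G.1 ha hb _ hq
  set r : B := U₁.eq (sb pt F.1) ⊓ U₂.eq (sb pt G.1) ⊓
    (⨅ x : (tS B).HSet, x.mem (XX pt) ⇨ x.mem U₁ ⊔ x.mem U₂) with hr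
  have hr1 : r ≤ U₁.eq (sb pt F.1) := inf_le_left.trans inf_le_left
  have hr2 : r ≤ U₂.eq (sb pt G.1) := inf_le_left.trans inf_le_right
  have hrq : r ≤ ⨅ z, F.1 z ⊔ G.1 z := by
    refine le_iInf fun z => ?_
    have h3 : r ≤ (pt z).mem U₁ ⊔ (pt z).mem U₂ := by
      have h4 : r ≤ (pt z).mem (XX pt) ⇨ (pt z).mem U₁ ⊔ (pt z).mem U₂ :=
        inf_le_right.trans (iInf_le _ (pt z))
      have h5 : (pt z).mem (XX pt) = ⊤ := mem_fm_top pt z
      rwa [h5, top_himp] at h4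
    have h6 : r ≤ ((pt z).mem U₁ ⊔ (pt z).mem U₂) ⊓ (U₁.eq (sb pt F.1) ⊓ U₂.eq (sb pt G.1)) :=
      le_inf h3 inf_le_left
    refine h6.trans ?_
    rw [inf_sup_right]
    refine sup_le_sup ?_ ?_
    · have h7 := HSet.mem_congr_right (pt z) U₁ (sb pt F.1)
      rw [mem_sb hpt] at h7
      refine le_trans ?_ h7
      rw [inf_comm]
      exact inf_le_inf_right _ inf_le_left
    · have h7 := HSet.mem_congr_right (pt z) U₂ (sb pt G.1)
      rw [mem_sb hpt] at h7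
      refine le_trans ?_ h7
      rw [inf_comm]
      exact inf_le_inf_right _ inf_le_right
  refine le_iSup_of_le (sb pt v₁) (le_iSup_of_le (sb pt v₂) ?_)
  rw [sb_mem_TT ho1, sb_mem_TT ho2, top_inf_eq, top_inf_eq]
  refine le_inf ?_ (le_inf ?_ ?_)
  · exact cov_aux U₁ F.1 v₁ r hr1 fun y => hrq.trans (h1 y)
  · exact cov_aux U₂ G.1 v₂ r hr2 fun y => hrq.trans (h2 y)
  · refine le_iInf fun x => ?_
    rw [dis_aux hpt v₁ v₂ hdis x, compl_bot]
    exact le_top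

end Pool.Agent.Lib.MP_473540_gtM
end

section

/-!
# The space is linearly Lindelöf
-/

set_option autoImplicit false

namespace Pool.Agent.Lib.MP_473540_gtM

open Pool.Agent.Lib.SymZF Pool.Agent.Lib.SymZF.SymSys Pool.Agent.Lib.RM48 Pool.Agent.Lib.KZF
open Cardinal

variable {B : Type} [CompleteBooleanAlgebra B] {Y : Type} [TopologicalSpace Y] {Λ : Type}
  {pt : Y → (tS B).HSet}

/-- **Linear Lindelöf property.** -/
theorem lin_axiom (c : Coll Λ B) (hY : MuSpace Λ Y) (hpt : Inj pt) (𝒰 : (tS B).HSet) :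
    bsub 𝒰 (TT pt) ⊓ bcov (XX pt) 𝒰 ⊓ bchain 𝒰 ≤ bcsc (XX pt) 𝒰 := by
  by_contra hs
  have hr₀ : bsub 𝒰 (TT pt) ⊓ bcov (XX pt) 𝒰 ⊓ bchain 𝒰 ⊓ (bcsc (XX pt) 𝒰)ᶜ ≠ ⊥ := fun h0 =>
    hs (disjoint_compl_right_iff.1 (disjoint_iff.2 h0))
  have hch : UChain (fun f => (sb pt f).mem 𝒰)
      (bsub 𝒰 (TT pt) ⊓ bcov (XX pt) 𝒰 ⊓ bchain 𝒰 ⊓ (bcsc (XX pt) 𝒰)ᶜ) := by
    intro f g _ _
    have h1 : bchain 𝒰 ≤ ((sb pt f).mem 𝒰 ⇨ (sb pt g).mem 𝒰 ⇨
        bsub (sb pt f) (sb pt g) ⊔ bsub (sb pt g) (sb pt f)) :=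
      (iInf_le _ (sb pt f)).trans (iInf_le _ (sb pt g))
    rw [le_himp_iff, le_himp_iff] at h1
    rw [← bsub_sb hpt f g, ← bsub_sb hpt g f]
    refine le_trans ?_ h1
    refine le_inf (le_inf ?_ ?_) ?_
    · exact inf_le_left.trans (inf_le_left.trans inf_le_right)
    · exact inf_le_right.trans inf_le_left
    · exact inf_le_right.trans inf_le_right
  have hcov : ∀ y, bsub 𝒰 (TT pt) ⊓ bcov (XX pt) 𝒰 ⊓ bchain 𝒰 ⊓ (bcsc (XX pt) 𝒰)ᶜ ≤
      ⨆ F : {f : Y → B // Op f}, (sb pt F.1).mem 𝒰 ⊓ F.1 y := by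
    intro y
    have h2 : bcov (XX pt) 𝒰 ≤ ⨆ v : (tS B).HSet, v.mem 𝒰 ⊓ (pt y).mem v := by
      refine (iInf_le _ (pt y)).trans ?_
      have h : (pt y).mem (XX pt) = ⊤ := mem_fm_top pt y
      rw [h, top_himp]
    have h3 : bsub 𝒰 (TT pt) ⊓ bcov (XX pt) 𝒰 ≤
        ⨆ F : {f : Y → B // Op f}, (sb pt F.1).mem 𝒰 ⊓ F.1 y := by
      refine (inf_le_inf_left _ h2).trans ?_
      rw [inf_iSup_eq]
      refine iSup_le fun v => ?_
      have h4 : bsub 𝒰 (TT pt) ⊓ v.mem 𝒰 ≤ ⨆ F : {f : Y → B // Op f}, v.eq (sb pt F.1) := by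
        rw [← mem_TT]
        exact (inf_le_inf_right _ (iInf_le _ v)).trans himp_inf_le
      have h5 : bsub 𝒰 (TT pt) ⊓ (v.mem 𝒰 ⊓ (pt y).mem v) ≤
          (⨆ F : {f : Y → B // Op f}, v.eq (sb pt F.1)) ⊓ (v.mem 𝒰 ⊓ (pt y).mem v) := by
        refine le_inf ?_ inf_le_right
        refine le_trans ?_ h4
        exact inf_le_inf_left _ inf_le_left
      refine h5.trans ?_
      rw [iSup_inf_eq]
      refine iSup_le fun F => le_iSup_of_le F ?_
      refine le_inf ?_ ?_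
      · refine le_trans ?_ (HSet.mem_congr_left v (sb pt F.1) 𝒰)
        exact inf_le_inf_left _ inf_le_left
      · rw [← mem_sb hpt F.1 y]
        refine le_trans ?_ (HSet.mem_congr_right (pt y) v (sb pt F.1))
        exact inf_le_inf_left _ inf_le_right
    exact (inf_le_left.trans inf_le_left).trans h3
  obtain ⟨r, hr, hr0, a, F, hF, hc⟩ := lin_core c hY hr₀ hch hcov
  have h6 : r ≤ bcsc (XX pt) 𝒰 := bcsc_of_fam c hpt 𝒰 hF hc
  have h7 : r ≤ (bcsc (XX pt) 𝒰)ᶜ := hr.trans inf_le_right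
  exact hr0 (le_bot_iff.1 ((le_inf h6 h7).trans (le_of_eq (inf_compl_self _))))

end Pool.Agent.Lib.MP_473540_gtM
end

section

/-!
# The model
-/

set_option autoImplicit false

namespace Pool.Agent.Lib.MP_473540_gtM

open Pool.Agent.Lib.SymZF Pool.Agent.Lib.SymZF.SymSys Pool.Agent.Lib.RM48 Pool.Agent.Lib.KZF
open Cardinal

/-- the sentence is true in the Boolean-valued model -/
theorem bval_sent {B : Type} [CompleteBooleanAlgebra B] {Λ : Type} (c : Coll Λ B) {Y : Type}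
    [TopologicalSpace Y] (hY : MuSpace Λ Y) (C : ℕ → BF) (v : ℕ → (tS B).HSet) :
    bvalX C fSent v = ⊤ := by
  obtain ⟨pt, hpt⟩ := exists_pt B Y
  have := hY.t1
  exact bvalX_fSent C v (XX pt) (TT pt) (fun U => top_sub U) top_univ
    (fun U V => top_inter hpt U V) (fun S => top_union hpt S) (fun x y => t1_axiom hpt x y)
    (fun U₁ U₂ => normal_axiom c hY hpt U₁ U₂) (fun 𝒰 => lin_axiom c hY hpt 𝒰)
    (not_lindelof c hY hpt)

/-- **The model.** -/
theorem exists_model_of {Λ : Type} (hΛ : ℵ₀ ≤ #Λ) {Y : Type} [TopologicalSpace Y]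
    (hY : MuSpace Λ Y) : ∃ (M : Type) (E : M → M → Prop), Countable M ∧ WellFounded E ∧
      IsZFC E ∧ ∃ X T, IsExample E X T := by
  obtain ⟨B, iB, hB, ⟨c⟩⟩ := exists_coll Λ hΛ
  obtain ⟨M, E, h1, h2, -, h4, h5⟩ := exists_model B (fun _ => BF.atm 0)
  have h6 := h5 fSent (bval_sent c hY _)
  obtain ⟨x, -⟩ : ∃ x : M, True := by
    obtain ⟨w, -⟩ := omega_ex h4.zf
    exact ⟨w, trivial⟩
  exact ⟨M, E, h1, h2, h4, example_of_sat _ h4.zf (fun _ => x) (h6 _)⟩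

end Pool.Agent.Lib.MP_473540_gtM
end
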